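import Pool.Agent.Helper66.HB.Cyc

namespace Pool.Agent.Helper66.HB

open scoped RealInnerProductSpace
open Filter Topology

theorem sum_zmod {K : ℕ} [NeZero K] (F : ZMod K → ℝ) :
    ∑ a, F a = ∑ α ∈ Finset.range K, F (α : ZMod K) := by
  refine Finset.sum_bij' (fun a _ => a.val) (fun α _ => (α : ZMod K)) ?_ ?_ ?_ ?_ ?_
  · intro a _; exact Finset.mem_range.2 (ZMod.val_lt a)
  · intro α _; exact Finset.mem_univ _
  · intro a _; exact ZMod.natCast_zmod_val a
  · intro α hα; exact ZMod.val_cast_of_lt (Finset.mem_range.1 hα)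
  · intro a _; rw [ZMod.natCast_zmod_val a]

theorem sum_shift {n : ℕ} [NeZero n] (F : ZMod n → ℝ) (w : ZMod n) :
    ∑ u, F (u + w) = ∑ u, F u := Equiv.sum_comp (Equiv.addRight w) F

section

variable {E : Type} [NormedAddCommGroup E] [InnerProductSpace ℝ E]

/-- the residual of the heavy-ball recursion -/
noncomputable def resid (γ β : ℝ) (G : E → E) {n : ℕ} (X : ZMod n → E) (u : ZMod n) : E :=
  γ⁻¹ • ((1 + β) • X u - X (u + 1) - β • X (u - 1)) - G (X u)

noncomputable def nrm {n : ℕ} [NeZero n] (X : ZMod n → E) : ℝ := ∑ u, ‖X u‖ ^ 2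

noncomputable def del {n : ℕ} [NeZero n] (X : ZMod n → E) (k : ℕ) : ℝ :=
  ∑ u, ‖X (u + k) - X u‖ ^ 2

theorem norm_sq_three (a b c : E) : ‖a + b + c‖ ^ 2 ≤ 3 * (‖a‖ ^ 2 + ‖b‖ ^ 2 + ‖c‖ ^ 2) := by
  have h : ‖a + b + c‖ ≤ ‖a‖ + ‖b‖ + ‖c‖ := (norm_add_le _ _).trans (by gcongr; exact norm_add_le _ _)
  have h2 : ‖a + b + c‖ ^ 2 ≤ (‖a‖ + ‖b‖ + ‖c‖) ^ 2 := by gcongr
  nlinarith [sq_nonneg (‖a‖ - ‖b‖), sq_nonneg (‖b‖ - ‖c‖), sq_nonneg (‖a‖ - ‖c‖)]

/-- the family of truncated orbits; `c a` says whether the window is open at `a` -/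
noncomputable def fam {n K : ℕ} (X : ZMod n → E) (c : ZMod K → ℝ) (a : ZMod K) (u : ZMod n) : E :=
  c a • X (u + (a.val : ZMod n))

theorem fam_error {γ β : ℝ} {G : E → E} (hG0 : G 0 = 0) {n K : ℕ} [NeZero n] [NeZero K]
    (X : ZMod n → E) (c : ZMod K → ℝ) (hc : ∀ a, c a = 0 ∨ c a = 1) :
    ∑ a, ∑ u, ‖γ⁻¹ • ((1 + β) • fam X c a u - fam X c (a + 1) u - β • fam X c (a - 1) u)
        - G (fam X c a u)‖ ^ 2 ≤
      3 * (K * ∑ u, ‖resid γ β G X u‖ ^ 2
        + γ⁻¹ ^ 2 * ∑ a, ∑ u, ‖c a • X (u + (a.val : ZMod n) + 1) - fam X c (a + 1) u‖ ^ 2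
        + (β * γ⁻¹) ^ 2 *
            ∑ a, ∑ u, ‖c a • X (u + (a.val : ZMod n) - 1) - fam X c (a - 1) u‖ ^ 2) := by
  have hpt : ∀ a u, ‖γ⁻¹ • ((1 + β) • fam X c a u - fam X c (a + 1) u - β • fam X c (a - 1) u)
        - G (fam X c a u)‖ ^ 2 ≤ 3 * (‖resid γ β G X (u + (a.val : ZMod n))‖ ^ 2 +
        γ⁻¹ ^ 2 * ‖c a • X (u + (a.val : ZMod n) + 1) - fam X c (a + 1) u‖ ^ 2 +
        (β * γ⁻¹) ^ 2 * ‖c a • X (u + (a.val : ZMod n) - 1) - fam X c (a - 1) u‖ ^ 2) := by
    intro a u
    set w := u + (a.val : ZMod n) with hw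
    have e : γ⁻¹ • ((1 + β) • fam X c a u - fam X c (a + 1) u - β • fam X c (a - 1) u)
        - G (fam X c a u) = c a • resid γ β G X w + γ⁻¹ • (c a • X (w + 1) - fam X c (a + 1) u)
          + (β * γ⁻¹) • (c a • X (w - 1) - fam X c (a - 1) u) := by
      have hfa : fam X c a u = c a • X w := rfl
      rw [hfa, resid]
      rcases hc a with h | h
      · rw [h]; simp only [zero_smul, hG0]; module
      · rw [h]; simp only [one_smul]; module
    rw [e]
    refine (norm_sq_three _ _ _).trans ?_
    rw [norm_smul (γ⁻¹), norm_smul (β * γ⁻¹), norm_smul (c a), mul_pow, mul_pow, mul_pow,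
      Real.norm_eq_abs, Real.norm_eq_abs, Real.norm_eq_abs, sq_abs, sq_abs, sq_abs]
    have h1 : c a ^ 2 * ‖resid γ β G X w‖ ^ 2 ≤ ‖resid γ β G X w‖ ^ 2 := by
      rcases hc a with h | h <;> rw [h] <;> simp
    linarith
  have hsum : ∑ a : ZMod K, ∑ u, ‖resid γ β G X (u + (a.val : ZMod n))‖ ^ 2 =
      K * ∑ u, ‖resid γ β G X u‖ ^ 2 := by
    have : ∀ a : ZMod K, ∑ u, ‖resid γ β G X (u + (a.val : ZMod n))‖ ^ 2 =
        ∑ u, ‖resid γ β G X u‖ ^ 2 := fun a =>
      sum_shift (fun u => ‖resid γ β G X u‖ ^ 2) (a.val : ZMod n)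
    rw [Finset.sum_congr rfl fun a _ => this a, Finset.sum_const, Finset.card_univ, ZMod.card,
      nsmul_eq_mul]
  calc _ ≤ ∑ a, ∑ u, 3 * (‖resid γ β G X (u + (a.val : ZMod n))‖ ^ 2 +
        γ⁻¹ ^ 2 * ‖c a • X (u + (a.val : ZMod n) + 1) - fam X c (a + 1) u‖ ^ 2 +
        (β * γ⁻¹) ^ 2 * ‖c a • X (u + (a.val : ZMod n) - 1) - fam X c (a - 1) u‖ ^ 2) :=
        Finset.sum_le_sum fun a _ => Finset.sum_le_sum fun u _ => hpt a u
    _ = _ := by
        rw [← hsum]
        simp only [Finset.mul_sum, mul_add, Finset.sum_add_distrib]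

theorem val_add_one' {K : ℕ} [NeZero K] (a : ZMod K) (h : a.val + 1 < K) :
    (a + 1).val = a.val + 1 := by
  have hK : 1 < K := by omega
  have h1 : (1 : ZMod K).val = 1 := by
    have := ZMod.val_cast_of_lt (n := K) (a := 1) hK
    simpa using this
  rw [ZMod.val_add_of_lt (by rw [h1]; exact h), h1]

theorem val_sub_one' {K : ℕ} [NeZero K] (a : ZMod K) (h : a ≠ 0) :
    a.val = (a - 1).val + 1 := by
  have ha : a.val ≠ 0 := fun h' => h ((ZMod.val_eq_zero a).1 h')
  have hlt := ZMod.val_lt a
  have h2 : a - 1 = ((a.val - 1 : ℕ) : ZMod K) := by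
    rw [Nat.cast_sub (by omega : 1 ≤ a.val), ZMod.natCast_zmod_val]; simp
  rw [h2, ZMod.val_cast_of_lt (by omega)]
  omega

theorem sum_zmod_val {K : ℕ} [NeZero K] (F : ℕ → ℝ) :
    ∑ a : ZMod K, F a.val = ∑ α ∈ Finset.range K, F α := by
  rw [sum_zmod]
  exact Finset.sum_congr rfl fun α hα => by
    rw [ZMod.val_cast_of_lt (Finset.mem_range.1 hα)]

theorem add_one_eq_zero {K : ℕ} [NeZero K] (a : ZMod K) (h : ¬ a.val + 1 < K) : a + 1 = 0 := by
  have hlt := ZMod.val_lt a
  have h1 : a.val + 1 = K := by omega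
  have h2 : ((a.val + 1 : ℕ) : ZMod K) = 0 := by rw [h1]; exact ZMod.natCast_self K
  rw [Nat.cast_add, ZMod.natCast_zmod_val, Nat.cast_one] at h2
  exact h2

theorem val_neg_one_eq {K : ℕ} [NeZero K] : ((0 : ZMod K) - 1).val = K - 1 := by
  obtain ⟨k, rfl⟩ : ∃ k, K = k + 1 := ⟨K - 1, by have := NeZero.ne K; omega⟩
  rw [zero_sub]
  exact ZMod.val_neg_one k

/-- Case I: the sequence is nearly `τ`-periodic -/
theorem caseI {γ β : ℝ} (hβ : β ^ 2 ≤ 1) {G : E → E} (hG0 : G 0 = 0) {n : ℕ}
    [NeZero n] (X : ZMod n → E) (τ : ℕ) [NeZero τ] :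
    ∑ a, ∑ u, ‖γ⁻¹ • ((1 + β) • fam X (fun _ : ZMod τ => 1) a u
        - fam X (fun _ : ZMod τ => 1) (a + 1) u
        - β • fam X (fun _ : ZMod τ => 1) (a - 1) u) - G (fam X (fun _ : ZMod τ => 1) a u)‖ ^ 2 ≤
      3 * τ * ∑ u, ‖resid γ β G X u‖ ^ 2 + 12 * γ⁻¹ ^ 2 * del X τ := by
  have hτ0 : τ ≠ 0 := NeZero.ne τ
  have hdel : 0 ≤ del X τ := by rw [del]; positivity
  refine (fam_error hG0 X (fun _ : ZMod τ => 1) (fun _ => Or.inr rfl)).trans ?_
  have hP : ∑ a : ZMod τ, ∑ u, ‖(1 : ℝ) • X (u + (a.val : ZMod n) + 1)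
      - fam X (fun _ : ZMod τ => 1) (a + 1) u‖ ^ 2 ≤ del X τ := by
    calc _ ≤ ∑ a : ZMod τ, (fun k : ℕ => if k = τ - 1 then del X τ else 0) a.val := by
          refine Finset.sum_le_sum fun a _ => ?_
          simp only
          by_cases h : a.val + 1 < τ
          · have h1 := val_add_one' a h
            have : ∀ u, (1 : ℝ) • X (u + (a.val : ZMod n) + 1)
                - fam X (fun _ : ZMod τ => 1) (a + 1) u = 0 := by
              intro u
              rw [fam, h1, Nat.cast_add, Nat.cast_one, ← add_assoc, sub_self]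
            simp only [this, norm_zero]
            rw [if_neg (by omega)]
            simp
          · have h1 := add_one_eq_zero a h
            have hlt := ZMod.val_lt a
            rw [if_pos (by omega), del]
            apply le_of_eq
            refine Finset.sum_congr rfl fun u _ => ?_
            rw [fam, h1, ZMod.val_zero, one_smul, one_smul, Nat.cast_zero, add_zero, add_assoc]
            have : (a.val : ZMod n) + 1 = (τ : ZMod n) := by
              have h7 : ((a.val + 1 : ℕ) : ZMod n) = ((τ : ℕ) : ZMod n) :=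
                congrArg _ (by omega)
              rw [← h7]; push_cast; rfl
            rw [this]
      _ = del X τ := by
          refine (sum_zmod_val (fun k : ℕ => if k = τ - 1 then del X τ else 0)).trans ?_
          rw [Finset.sum_ite_eq', if_pos (Finset.mem_range.2 (by omega))]
  have hQ : ∑ a : ZMod τ, ∑ u, ‖(1 : ℝ) • X (u + (a.val : ZMod n) - 1)
      - fam X (fun _ : ZMod τ => 1) (a - 1) u‖ ^ 2 ≤ del X τ := by
    calc _ ≤ ∑ a : ZMod τ, (fun k : ℕ => if k = 0 then del X τ else 0) a.val := by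
          refine Finset.sum_le_sum fun a _ => ?_
          simp only
          by_cases h : a = 0
          · subst h
            rw [ZMod.val_zero, if_pos rfl, del]
            apply le_of_eq
            rw [← sum_shift (fun u => ‖X (u + (τ : ZMod n)) - X u‖ ^ 2) (-1)]
            refine Finset.sum_congr rfl fun u _ => ?_
            rw [fam, val_neg_one_eq, one_smul, one_smul, norm_sub_rev]
            have e1 : u + ((0 : ℕ) : ZMod n) - 1 = u + -1 := by push_cast; ring
            have e2 : u + ((τ - 1 : ℕ) : ZMod n) = u + -1 + (τ : ZMod n) := by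
              rw [Nat.cast_sub (by omega)]; push_cast; ring
            rw [e1, e2]
          · have h1 := val_sub_one' a h
            have hne : a.val ≠ 0 := by omega
            rw [if_neg hne]
            have : ∀ u, (1 : ℝ) • X (u + (a.val : ZMod n) - 1)
                - fam X (fun _ : ZMod τ => 1) (a - 1) u = 0 := by
              intro u
              have e1 : u + (a.val : ZMod n) - 1 = u + ((a - 1).val : ZMod n) := by
                rw [h1]; push_cast; ring
              rw [fam, e1, sub_self]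
            simp only [this, norm_zero]
            simp
      _ = del X τ := by
          refine (sum_zmod_val (fun k : ℕ => if k = 0 then del X τ else 0)).trans ?_
          rw [Finset.sum_ite_eq', if_pos (Finset.mem_range.2 (by omega))]
  have hg : 0 ≤ γ⁻¹ ^ 2 := by positivity
  have hr : 0 ≤ ∑ u, ‖resid γ β G X u‖ ^ 2 := by positivity
  have h1 := mul_le_mul_of_nonneg_left hP hg
  have h2 : (β * γ⁻¹) ^ 2 * ∑ a : ZMod τ, ∑ u, ‖(1 : ℝ) • X (u + (a.val : ZMod n) - 1)
      - fam X (fun _ : ZMod τ => 1) (a - 1) u‖ ^ 2 ≤ γ⁻¹ ^ 2 * del X τ := by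
    calc _ ≤ (β * γ⁻¹) ^ 2 * del X τ := mul_le_mul_of_nonneg_left hQ (by positivity)
      _ = β ^ 2 * (γ⁻¹ ^ 2 * del X τ) := by ring
      _ ≤ 1 * (γ⁻¹ ^ 2 * del X τ) := mul_le_mul_of_nonneg_right hβ (by positivity)
      _ = _ := by ring
  have h3 : 0 ≤ γ⁻¹ ^ 2 * del X τ := by positivity
  linarith

/-- the window `a.val < M` -/
noncomputable def win (M : ℕ) {K : ℕ} (a : ZMod K) : ℝ := if a.val < M then 1 else 0

/-- Case II: long windows -/
theorem caseII {γ β : ℝ} (hβ : β ^ 2 ≤ 1) {G : E → E} (hG0 : G 0 = 0) {n : ℕ}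
    [NeZero n] (X : ZMod n → E) (M : ℕ) (hM : 1 ≤ M) [NeZero (2 * M)] :
    ∑ a, ∑ u, ‖γ⁻¹ • ((1 + β) • fam X (fun a : ZMod (2 * M) => win M a) a u
        - fam X (fun a : ZMod (2 * M) => win M a) (a + 1) u
        - β • fam X (fun a : ZMod (2 * M) => win M a) (a - 1) u)
        - G (fam X (fun a : ZMod (2 * M) => win M a) a u)‖ ^ 2 ≤
      6 * M * ∑ u, ‖resid γ β G X u‖ ^ 2 + 12 * γ⁻¹ ^ 2 * nrm X := by
  have hS : 0 ≤ nrm X := by rw [nrm]; positivity
  refine (fam_error hG0 X (fun a : ZMod (2 * M) => win M a) (fun a => by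
    simp only [win]; split_ifs <;> simp)).trans ?_
  have hP : ∑ a : ZMod (2 * M), ∑ u, ‖win M a • X (u + (a.val : ZMod n) + 1)
      - fam X (fun a : ZMod (2 * M) => win M a) (a + 1) u‖ ^ 2 ≤ 2 * nrm X := by
    calc _ ≤ ∑ a : ZMod (2 * M), (fun k : ℕ => (if k = M - 1 then nrm X else 0) +
          (if k = 2 * M - 1 then nrm X else 0)) a.val := by
          refine Finset.sum_le_sum fun a _ => ?_
          simp only
          have hlt := ZMod.val_lt a
          by_cases h : a.val + 1 < 2 * M
          · have h1 := val_add_one' a h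
            by_cases h2 : a.val = M - 1
            · rw [if_pos h2]
              have e : ∀ u, win M a • X (u + (a.val : ZMod n) + 1)
                - fam X (fun a : ZMod (2 * M) => win M a) (a + 1) u = X (u + (a.val + 1 : ZMod n)) := by
                intro u
                have w1 : win M a = 1 := by rw [win, if_pos (by omega)]
                have w2 : win M (a + 1) = 0 := by rw [win, h1, if_neg (by omega)]
                rw [fam, w1, w2, one_smul, zero_smul, sub_zero, add_assoc]
              simp only [e]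
              rw [sum_shift (fun u => ‖X u‖ ^ 2) _, ← nrm]
              have : 0 ≤ (if a.val = 2 * M - 1 then nrm X else 0) := by split_ifs <;> simp [hS]
              linarith
            · have e : ∀ u, win M a • X (u + (a.val : ZMod n) + 1)
                - fam X (fun a : ZMod (2 * M) => win M a) (a + 1) u = 0 := by
                intro u
                by_cases h3 : a.val < M
                · have w1 : win M a = 1 := by rw [win, if_pos h3]
                  have w2 : win M (a + 1) = 1 := by rw [win, h1, if_pos (by omega)]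
                  rw [fam, w1, w2, h1, Nat.cast_add, Nat.cast_one, ← add_assoc, sub_self]
                · have w1 : win M a = 0 := by rw [win, if_neg h3]
                  have w2 : win M (a + 1) = 0 := by rw [win, h1, if_neg (by omega)]
                  rw [fam, w1, w2, zero_smul, zero_smul, sub_self]
              simp only [e, norm_zero]
              have : 0 ≤ (if a.val = 2 * M - 1 then nrm X else 0) := by split_ifs <;> simp [hS]
              have : 0 ≤ (if a.val = M - 1 then nrm X else 0) := by split_ifs <;> simp [hS]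
              simp
              linarith
          · have h1 := add_one_eq_zero a h
            have e : ∀ u, win M a • X (u + (a.val : ZMod n) + 1)
                - fam X (fun a : ZMod (2 * M) => win M a) (a + 1) u = - X u := by
              intro u
              have w1 : win M a = 0 := by rw [win, if_neg (by omega)]
              have w2 : win M (a + 1) = 1 := by rw [h1, win, ZMod.val_zero, if_pos (by omega)]
              rw [fam, w2, h1, w1, ZMod.val_zero, zero_smul, one_smul, Nat.cast_zero, add_zero, zero_sub]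
            simp only [e, norm_neg]
            have h5 : a.val = 2 * M - 1 := by omega
            rw [if_pos h5, ← nrm]
            have : 0 ≤ (if a.val = M - 1 then nrm X else 0) := by split_ifs <;> simp [hS]
            linarith
      _ = 2 * nrm X := by
          refine (sum_zmod_val (fun k : ℕ => (if k = M - 1 then nrm X else 0) +
            (if k = 2 * M - 1 then nrm X else 0))).trans ?_
          rw [Finset.sum_add_distrib, Finset.sum_ite_eq', Finset.sum_ite_eq',
            if_pos (Finset.mem_range.2 (by omega)), if_pos (Finset.mem_range.2 (by omega))]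
          ring
  have hQ : ∑ a : ZMod (2 * M), ∑ u, ‖win M a • X (u + (a.val : ZMod n) - 1)
      - fam X (fun a : ZMod (2 * M) => win M a) (a - 1) u‖ ^ 2 ≤ 2 * nrm X := by
    calc _ ≤ ∑ a : ZMod (2 * M), (fun k : ℕ => (if k = M then nrm X else 0) +
          (if k = 0 then nrm X else 0)) a.val := by
          refine Finset.sum_le_sum fun a _ => ?_
          simp only
          have hlt := ZMod.val_lt a
          by_cases h : a = 0
          · subst h
            have e : ∀ u, win M (0 : ZMod (2 * M)) • X (u + ((0 : ZMod (2 * M)).val : ZMod n) - 1)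
                - fam X (fun a : ZMod (2 * M) => win M a) (0 - 1) u = X (u + -1) := by
              intro u
              have w1 : win M (0 : ZMod (2 * M)) = 1 := by
                rw [win, ZMod.val_zero, if_pos (by omega)]
              have w2 : win M ((0 : ZMod (2 * M)) - 1) = 0 := by
                rw [win, val_neg_one_eq, if_neg (by omega)]
              rw [fam, w1, w2, zero_smul, one_smul, sub_zero, ZMod.val_zero, Nat.cast_zero,
                add_zero, sub_eq_add_neg]
            simp only [e]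
            rw [sum_shift (fun u => ‖X u‖ ^ 2) _, ← nrm, ZMod.val_zero, if_pos rfl]
            have : 0 ≤ (if 0 = M then nrm X else 0) := by split_ifs <;> simp [hS]
            linarith
          · have h1 := val_sub_one' a h
            have hne : a.val ≠ 0 := by omega
            rw [if_neg hne, add_zero]
            by_cases h2 : a.val = M
            · rw [if_pos h2]
              have e : ∀ u, win M a • X (u + (a.val : ZMod n) - 1)
                - fam X (fun a : ZMod (2 * M) => win M a) (a - 1) u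
                  = - X (u + ((a - 1).val : ZMod n)) := by
                intro u
                have w1 : win M a = 0 := by rw [win, if_neg (by omega)]
                have w2 : win M (a - 1) = 1 := by rw [win, if_pos (by omega)]
                rw [fam, w1, w2, one_smul, zero_smul, zero_sub]
              simp only [e, norm_neg]
              rw [sum_shift (fun u => ‖X u‖ ^ 2) _, ← nrm]
            · rw [if_neg h2]
              have e : ∀ u, win M a • X (u + (a.val : ZMod n) - 1)
                - fam X (fun a : ZMod (2 * M) => win M a) (a - 1) u = 0 := by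
                intro u
                have e1 : u + (a.val : ZMod n) - 1 = u + ((a - 1).val : ZMod n) := by
                  rw [h1]; push_cast; ring
                by_cases h3 : a.val < M
                · have w1 : win M a = 1 := by rw [win, if_pos h3]
                  have w2 : win M (a - 1) = 1 := by rw [win, if_pos (by omega)]
                  rw [fam, w1, w2, e1, sub_self]
                · have w1 : win M a = 0 := by rw [win, if_neg h3]
                  have w2 : win M (a - 1) = 0 := by rw [win, if_neg (by omega)]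
                  rw [fam, w1, w2, zero_smul, zero_smul, sub_self]
              simp only [e, norm_zero]
              simp
      _ = 2 * nrm X := by
          refine (sum_zmod_val (fun k : ℕ => (if k = M then nrm X else 0) +
            (if k = 0 then nrm X else 0))).trans ?_
          rw [Finset.sum_add_distrib, Finset.sum_ite_eq', Finset.sum_ite_eq',
            if_pos (Finset.mem_range.2 (by omega)), if_pos (Finset.mem_range.2 (by omega))]
          ring
  have hg : 0 ≤ γ⁻¹ ^ 2 := by positivity
  have hr : 0 ≤ ∑ u, ‖resid γ β G X u‖ ^ 2 := by positivity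
  have h1 := mul_le_mul_of_nonneg_left hP hg
  have h2 : (β * γ⁻¹) ^ 2 * ∑ a : ZMod (2 * M), ∑ u, ‖win M a • X (u + (a.val : ZMod n) - 1)
      - fam X (fun a : ZMod (2 * M) => win M a) (a - 1) u‖ ^ 2 ≤ γ⁻¹ ^ 2 * (2 * nrm X) := by
    calc _ ≤ (β * γ⁻¹) ^ 2 * (2 * nrm X) := mul_le_mul_of_nonneg_left hQ (by positivity)
      _ = β ^ 2 * (γ⁻¹ ^ 2 * (2 * nrm X)) := by ring
      _ ≤ 1 * (γ⁻¹ ^ 2 * (2 * nrm X)) := mul_le_mul_of_nonneg_right hβ (by positivity)
      _ = _ := by ring
  have e4 : (((2 * M : ℕ) : ℝ)) = 2 * (M : ℝ) := by push_cast; ring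
  rw [e4]
  linarith

/-- distances in case I -/
theorem distI {n : ℕ} [NeZero n] (X : ZMod n → E) (τ : ℕ) [NeZero τ] (r : ZMod τ) :
    del X r.val ≤ ∑ a, ∑ u, ‖fam X (fun _ : ZMod τ => 1) (a + r) u
      - fam X (fun _ : ZMod τ => 1) a u‖ ^ 2 := by
  refine le_trans ?_ (Finset.single_le_sum (f := fun a => ∑ u,
    ‖fam X (fun _ : ZMod τ => 1) (a + r) u - fam X (fun _ : ZMod τ => 1) a u‖ ^ 2)
    (fun a _ => by positivity) (Finset.mem_univ 0))
  rw [del]
  apply le_of_eq
  refine Finset.sum_congr rfl fun u _ => ?_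
  rw [fam, fam, zero_add, ZMod.val_zero, Nat.cast_zero, add_zero, one_smul, one_smul]

/-- distances in case II -/
theorem distII {n : ℕ} [NeZero n] (X : ZMod n → E) (M : ℕ) (hM : 1 ≤ M)
    [NeZero (2 * M)] (r : ZMod (2 * M)) (hr : r.val ≤ M) :
    ((M : ℝ) - r.val) * del X r.val + r.val * nrm X ≤
      ∑ a, ∑ u, ‖fam X (fun a : ZMod (2 * M) => win M a) (a + r) u
      - fam X (fun a : ZMod (2 * M) => win M a) a u‖ ^ 2 := by
  rw [sum_zmod]
  have hsub : Finset.range M ⊆ Finset.range (2 * M) := Finset.range_subset_range.2 (by omega)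
  refine le_trans ?_ (Finset.sum_le_sum_of_subset_of_nonneg hsub (fun _ _ _ => by positivity))
  have hsplit : Finset.range M = Finset.range (M - r.val) ∪ Finset.Ico (M - r.val) M := by
    ext k; simp only [Finset.mem_range, Finset.mem_union, Finset.mem_Ico]; omega
  have hdisj : Disjoint (Finset.range (M - r.val)) (Finset.Ico (M - r.val) M) := by
    rw [Finset.disjoint_left]; intro k; simp only [Finset.mem_range, Finset.mem_Ico]; omega
  rw [hsplit, Finset.sum_union hdisj]
  have hval : ∀ k : ℕ, k < M → ((k : ZMod (2 * M)).val = k ∧ ((k : ZMod (2 * M)) + r).val = k + r.val) := by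
    intro k hk
    have h1 : (k : ZMod (2 * M)).val = k := ZMod.val_cast_of_lt (by omega)
    refine ⟨h1, ?_⟩
    rw [ZMod.val_add_of_lt (by rw [h1]; omega), h1]
  have hA : ∑ k ∈ Finset.range (M - r.val), ∑ u,
      ‖fam X (fun a : ZMod (2 * M) => win M a) ((k : ZMod (2 * M)) + r) u
      - fam X (fun a : ZMod (2 * M) => win M a) (k : ZMod (2 * M)) u‖ ^ 2 =
      ((M : ℝ) - r.val) * del X r.val := by
    have : ∀ k ∈ Finset.range (M - r.val), ∑ u,
      ‖fam X (fun a : ZMod (2 * M) => win M a) ((k : ZMod (2 * M)) + r) u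
      - fam X (fun a : ZMod (2 * M) => win M a) (k : ZMod (2 * M)) u‖ ^ 2 = del X r.val := by
      intro k hk
      rw [Finset.mem_range] at hk
      obtain ⟨h1, h2⟩ := hval k (by omega)
      rw [del, ← sum_shift (fun u => ‖X (u + (r.val : ZMod n)) - X u‖ ^ 2) (k : ZMod n)]
      refine Finset.sum_congr rfl fun u _ => ?_
      have w1 : win M (k : ZMod (2 * M)) = 1 := by rw [win, h1, if_pos (by omega)]
      have w2 : win M ((k : ZMod (2 * M)) + r) = 1 := by rw [win, h2, if_pos (by omega)]
      rw [fam, fam, w1, w2, h1, h2, one_smul, one_smul, Nat.cast_add, add_assoc]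
    rw [Finset.sum_congr rfl this, Finset.sum_const, Finset.card_range, nsmul_eq_mul,
      Nat.cast_sub hr]
  have hB : ∑ k ∈ Finset.Ico (M - r.val) M, ∑ u,
      ‖fam X (fun a : ZMod (2 * M) => win M a) ((k : ZMod (2 * M)) + r) u
      - fam X (fun a : ZMod (2 * M) => win M a) (k : ZMod (2 * M)) u‖ ^ 2 = r.val * nrm X := by
    have : ∀ k ∈ Finset.Ico (M - r.val) M, ∑ u,
      ‖fam X (fun a : ZMod (2 * M) => win M a) ((k : ZMod (2 * M)) + r) u
      - fam X (fun a : ZMod (2 * M) => win M a) (k : ZMod (2 * M)) u‖ ^ 2 = nrm X := by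
      intro k hk
      rw [Finset.mem_Ico] at hk
      obtain ⟨h1, h2⟩ := hval k (by omega)
      rw [nrm, ← sum_shift (fun u => ‖X u‖ ^ 2) (k : ZMod n)]
      refine Finset.sum_congr rfl fun u _ => ?_
      have w1 : win M (k : ZMod (2 * M)) = 1 := by rw [win, h1, if_pos (by omega)]
      have w2 : win M ((k : ZMod (2 * M)) + r) = 0 := by rw [win, h2, if_neg (by omega)]
      rw [fam, fam, w1, w2, h1, one_smul, zero_smul, zero_sub, norm_neg]
    rw [Finset.sum_congr rfl this, Finset.sum_const, Nat.card_Ico, nsmul_eq_mul]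
    have : M - (M - r.val) = r.val := by omega
    rw [this]
  rw [hA, hB]

theorem dist_symm {n K : ℕ} [NeZero n] [NeZero K] (Y : ZMod K → ZMod n → E) (r : ZMod K) :
    ∑ a, ∑ u, ‖Y (a + r) u - Y a u‖ ^ 2 = ∑ a, ∑ u, ‖Y (a + -r) u - Y a u‖ ^ 2 := by
  rw [← sum_shift (fun a => ∑ u, ‖Y (a + -r) u - Y a u‖ ^ 2) r]
  refine Finset.sum_congr rfl fun a _ => Finset.sum_congr rfl fun u _ => ?_
  rw [add_neg_cancel_right, norm_sub_rev]

end

end Pool.Agent.Helper66.HB
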