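import Pool.Agent.Helper66.HB.Main

namespace Pool.Agent.Helper66.HB

open scoped RealInnerProductSpace
open Filter Topology

section

variable {E : Type} [NormedAddCommGroup E] [InnerProductSpace ℝ E]

/-- orbits of the heavy-ball method with the gradient map `G` -/
def Orb (γ β : ℝ) (G : E → E) (x : ℕ → E) : Prop :=
  ∀ t, x (t + 2) = x (t + 1) - γ • G (x (t + 1)) + β • (x (t + 1) - x t)

theorem Orb.shift {γ β : ℝ} {G : E → E} {x : ℕ → E} (h : Orb γ β G x) (n : ℕ) :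
    Orb γ β G (fun t => x (n + t)) := fun t => h (n + t)

/-- uniform square summability of the orbits -/
def Stab (γ β C : ℝ) (G : E → E) : Prop :=
  ∀ x : ℕ → E, Orb γ β G x → ∀ N, ∑ t ∈ Finset.range N, ‖x t‖ ^ 2 ≤ C * (‖x 0‖ ^ 2 + ‖x 1‖ ^ 2)

theorem Stab.tendsto {γ β C : ℝ} {G : E → E} (h : Stab γ β C G) {x : ℕ → E}
    (hx : Orb γ β G x) : Summable (fun t => ‖x t‖ ^ 2) ∧ Tendsto x atTop (𝓝 0) := by
  have hs : Summable (fun t => ‖x t‖ ^ 2) :=
    summable_of_sum_range_le (fun t => by positivity) (h x hx)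
  refine ⟨hs, ?_⟩
  have h1 := hs.tendsto_atTop_zero
  rw [tendsto_zero_iff_norm_tendsto_zero]
  have h2 : Tendsto (fun t => Real.sqrt (‖x t‖ ^ 2)) atTop (𝓝 (Real.sqrt 0)) :=
    (Real.continuous_sqrt.tendsto 0).comp h1
  simpa [Real.sqrt_sq (norm_nonneg _)] using h2

/-- the a priori estimate for finite pieces of orbits -/
theorem segment_bound {γ β L Γ : ℝ} (hγ : γ ≠ 0) (hβ : β ^ 2 ≤ 1) (hL : 0 ≤ L)
    {G : E → E} (hG : ∀ x, ‖G x‖ ≤ L * ‖x‖) (hΓ : 0 < Γ)
    (hcoer : ∀ (n : ℕ) [NeZero n] (X : ZMod n → E), nrm X ≤ Γ * ∑ u, ‖resid γ β G X u‖ ^ 2)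
    {x : ℕ → E} (hx : Orb γ β G x) (N : ℕ) (hN : 1 ≤ N) :
    ∑ t ∈ Finset.range (N + 1), ‖x t‖ ^ 2 ≤ Γ * (3 * (2 * |γ⁻¹| + L) ^ 2 + 8 * γ⁻¹ ^ 2) *
      (‖x 0‖ ^ 2 + ‖x 1‖ ^ 2 + ‖x N‖ ^ 2 + ‖x (N + 1)‖ ^ 2) := by
  set X : ZMod (N + 1) → E := fun u => x u.val with hX
  have h1 := hcoer (N + 1) X
  have e1 : nrm X = ∑ t ∈ Finset.range (N + 1), ‖x t‖ ^ 2 := by
    rw [nrm]
    exact sum_zmod_val (fun t => ‖x t‖ ^ 2)
  rw [e1] at h1
  set A := 3 * ((2 * |γ⁻¹| + L) ^ 2 * ‖x 0‖ ^ 2 + γ⁻¹ ^ 2 * ‖x 1‖ ^ 2 + γ⁻¹ ^ 2 * ‖x N‖ ^ 2) with hA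
  set B := 2 * γ⁻¹ ^ 2 * (‖x (N + 1)‖ ^ 2 + ‖x 0‖ ^ 2) with hB
  have hA0 : 0 ≤ A := by positivity
  have hB0 : 0 ≤ B := by positivity
  have hbound : ∑ u, ‖resid γ β G X u‖ ^ 2 ≤ A + B := by
    calc ∑ u, ‖resid γ β G X u‖ ^ 2
        ≤ ∑ u : ZMod (N + 1), (fun k : ℕ => (if k = 0 then A else 0) + (if k = N then B else 0))
          u.val := by
          refine Finset.sum_le_sum fun u _ => ?_
          simp only
          have hlt := ZMod.val_lt u
          by_cases h0 : u = 0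
          · subst h0
            rw [ZMod.val_zero, if_pos rfl]
            have hone : (1 : ZMod (N + 1)).val = 1 := by
              have := ZMod.val_cast_of_lt (n := N + 1) (a := 1) (by omega)
              simpa using this
            have e2 : X (0 + 1) = x 1 := by simp only [hX, zero_add, hone]
            have e3 : X (0 - 1) = x N := by
              simp only [hX, val_neg_one_eq, Nat.add_sub_cancel]
            have e4 : X 0 = x 0 := by simp only [hX, ZMod.val_zero]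
            rw [resid, e2, e3, e4]
            have e5 : γ⁻¹ • ((1 + β) • x 0 - x 1 - β • x N) - G (x 0) =
              ((γ⁻¹ * (1 + β)) • x 0 - G (x 0)) + (-γ⁻¹) • x 1 + (-(β * γ⁻¹)) • x N := by module
            rw [e5]
            refine (norm_sq_three _ _ _).trans ?_
            have n1 : ‖(γ⁻¹ * (1 + β)) • x 0 - G (x 0)‖ ≤ (2 * |γ⁻¹| + L) * ‖x 0‖ := by
              have hb : |1 + β| ≤ 2 := by
                have : |β| ≤ 1 := by rw [← sq_le_one_iff_abs_le_one]; exact hβ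
                have := abs_le.1 this
                rw [abs_le]; constructor <;> linarith
              calc _ ≤ ‖(γ⁻¹ * (1 + β)) • x 0‖ + ‖G (x 0)‖ := norm_sub_le _ _
                _ ≤ |γ⁻¹| * 2 * ‖x 0‖ + L * ‖x 0‖ := by
                    rw [norm_smul, Real.norm_eq_abs, abs_mul]
                    gcongr
                    exact hG _
                _ = _ := by ring
            have n2 : ‖(γ⁻¹ * (1 + β)) • x 0 - G (x 0)‖ ^ 2 ≤ (2 * |γ⁻¹| + L) ^ 2 * ‖x 0‖ ^ 2 := by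
              rw [← mul_pow]; gcongr
            have n3 : ‖(-γ⁻¹) • x 1‖ ^ 2 = γ⁻¹ ^ 2 * ‖x 1‖ ^ 2 := by
              rw [norm_smul, mul_pow, Real.norm_eq_abs, sq_abs]; ring
            have n4 : ‖(-(β * γ⁻¹)) • x N‖ ^ 2 ≤ γ⁻¹ ^ 2 * ‖x N‖ ^ 2 := by
              rw [norm_smul, mul_pow, Real.norm_eq_abs, sq_abs]
              have : (-(β * γ⁻¹)) ^ 2 ≤ γ⁻¹ ^ 2 := by
                have : (-(β * γ⁻¹)) ^ 2 = β ^ 2 * γ⁻¹ ^ 2 := by ring
                rw [this]; nlinarith [sq_nonneg γ⁻¹]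
              exact mul_le_mul_of_nonneg_right this (by positivity)
            have : 0 ≤ (if 0 = N then B else 0) := by split_ifs <;> simp [hB0]
            rw [n3]
            linarith
          · have hv := val_sub_one' u h0
            have hne : u.val ≠ 0 := by omega
            rw [if_neg hne, zero_add]
            have hvv : u.val = (u - 1).val + 1 := hv
            have horb := hx (u - 1).val
            have e4 : X u = x ((u - 1).val + 1) := by simp only [hX]; rw [← hv]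
            have e3 : X (u - 1) = x (u - 1).val := rfl
            by_cases hN' : u.val = N
            · rw [if_pos hN']
              have h2 := add_one_eq_zero u (by omega)
              have e2 : X (u + 1) = x 0 := by simp only [hX, h2, ZMod.val_zero]
              have hk : (u - 1).val + 2 = N + 1 := by omega
              rw [hk] at horb
              have e5 : resid γ β G X u = γ⁻¹ • (x (N + 1) - x 0) := by
                rw [resid, e2, e3, e4, horb]
                have : γ⁻¹ • (x ((u - 1).val + 1) - γ • G (x ((u - 1).val + 1)) +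
                    β • (x ((u - 1).val + 1) - x (u - 1).val) - x 0) =
                    γ⁻¹ • ((1 + β) • x ((u - 1).val + 1) - x 0 - β • x (u - 1).val) -
                    (γ⁻¹ * γ) • G (x ((u - 1).val + 1)) := by module
                rw [this, inv_mul_cancel₀ hγ, one_smul]
              rw [e5, norm_smul, mul_pow, Real.norm_eq_abs, sq_abs, hB]
              have n5 : ‖x (N + 1) - x 0‖ ^ 2 ≤ 2 * (‖x (N + 1)‖ ^ 2 + ‖x 0‖ ^ 2) := by
                have := norm_sub_le (x (N + 1)) (x 0)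
                have h3 : ‖x (N + 1) - x 0‖ ^ 2 ≤ (‖x (N + 1)‖ + ‖x 0‖) ^ 2 := by gcongr
                nlinarith [sq_nonneg (‖x (N + 1)‖ - ‖x 0‖)]
              have := mul_le_mul_of_nonneg_left n5 (by positivity : 0 ≤ γ⁻¹ ^ 2)
              linarith
            · rw [if_neg hN']
              have h2 := val_add_one' u (by omega)
              have e2 : X (u + 1) = x ((u - 1).val + 2) := by
                simp only [hX, h2]; congr 1; omega
              have e5 : resid γ β G X u = 0 := by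
                rw [resid, e2, e3, e4, horb]
                have : γ⁻¹ • ((1 + β) • x ((u - 1).val + 1) - (x ((u - 1).val + 1)
                    - γ • G (x ((u - 1).val + 1)) + β • (x ((u - 1).val + 1) - x (u - 1).val))
                    - β • x (u - 1).val) = (γ⁻¹ * γ) • G (x ((u - 1).val + 1)) := by module
                rw [this, inv_mul_cancel₀ hγ, one_smul, sub_self]
              rw [e5]; simp
      _ = A + B := by
          refine (sum_zmod_val (fun k : ℕ => (if k = 0 then A else 0) +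
            (if k = N then B else 0))).trans ?_
          rw [Finset.sum_add_distrib, Finset.sum_ite_eq', Finset.sum_ite_eq',
            if_pos (Finset.mem_range.2 (by omega)), if_pos (Finset.mem_range.2 (by omega))]
  have h5 := h1.trans (mul_le_mul_of_nonneg_left hbound hΓ.le)
  have h6 : A + B ≤ (3 * (2 * |γ⁻¹| + L) ^ 2 + 8 * γ⁻¹ ^ 2) *
      (‖x 0‖ ^ 2 + ‖x 1‖ ^ 2 + ‖x N‖ ^ 2 + ‖x (N + 1)‖ ^ 2) := by
    rw [hA, hB]
    have p0 := sq_nonneg ‖x 0‖
    have p1 := sq_nonneg ‖x 1‖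
    have p2 := sq_nonneg ‖x N‖
    have p3 := sq_nonneg ‖x (N + 1)‖
    have q1 : 0 ≤ (2 * |γ⁻¹| + L) ^ 2 := by positivity
    have q2 : 0 ≤ γ⁻¹ ^ 2 := by positivity
    nlinarith [mul_nonneg q1 p1, mul_nonneg q1 p2, mul_nonneg q1 p3, mul_nonneg q2 p0,
      mul_nonneg q2 p1, mul_nonneg q2 p2, mul_nonneg q2 p3]
  calc _ ≤ Γ * (A + B) := h5
    _ ≤ Γ * ((3 * (2 * |γ⁻¹| + L) ^ 2 + 8 * γ⁻¹ ^ 2) *
      (‖x 0‖ ^ 2 + ‖x 1‖ ^ 2 + ‖x N‖ ^ 2 + ‖x (N + 1)‖ ^ 2)) := by gcongr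
    _ = _ := by ring

/-- any stability constant can be improved to a uniform one -/
theorem stab_uniform {γ β L Γ C : ℝ} (hγ : γ ≠ 0) (hβ : β ^ 2 ≤ 1) (hL : 0 ≤ L)
    {G : E → E} (hG : ∀ x, ‖G x‖ ≤ L * ‖x‖) (hΓ : 0 < Γ)
    (hcoer : ∀ (n : ℕ) [NeZero n] (X : ZMod n → E), nrm X ≤ Γ * ∑ u, ‖resid γ β G X u‖ ^ 2)
    (hst : Stab γ β C G) :
    Stab γ β (Γ * (3 * (2 * |γ⁻¹| + L) ^ 2 + 8 * γ⁻¹ ^ 2)) G := by
  intro x hx N
  set D := Γ * (3 * (2 * |γ⁻¹| + L) ^ 2 + 8 * γ⁻¹ ^ 2) with hD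
  have h1 : ∀ N', N + 1 ≤ N' → ∑ t ∈ Finset.range N, ‖x t‖ ^ 2 ≤
      D * (‖x 0‖ ^ 2 + ‖x 1‖ ^ 2 + ‖x N'‖ ^ 2 + ‖x (N' + 1)‖ ^ 2) := by
    intro N' hN'
    refine le_trans ?_ (segment_bound hγ hβ hL hG hΓ hcoer hx N' (by omega))
    exact Finset.sum_le_sum_of_subset_of_nonneg (Finset.range_subset_range.2 (by omega))
      (fun _ _ _ => by positivity)
  have h2 := (hst.tendsto hx).2
  have h3 : Tendsto (fun N' => D * (‖x 0‖ ^ 2 + ‖x 1‖ ^ 2 + ‖x N'‖ ^ 2 + ‖x (N' + 1)‖ ^ 2)) atTop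
      (𝓝 (D * (‖x 0‖ ^ 2 + ‖x 1‖ ^ 2 + ‖(0 : E)‖ ^ 2 + ‖(0 : E)‖ ^ 2))) := by
    have h4 := h2.comp (tendsto_add_atTop_nat 1)
    exact ((((tendsto_const_nhds (x := ‖x 0‖ ^ 2 + ‖x 1‖ ^ 2)).add (h2.norm.pow 2)).add
      (h4.norm.pow 2))).const_mul D
  have h5 := ge_of_tendsto h3 (by
    filter_upwards [eventually_ge_atTop (N + 1)] with N' hN'
    exact h1 N' hN')
  simpa using h5

end

end Pool.Agent.Helper66.HB
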