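import Mathlib

/-!
# Definitions for the heavy-ball method on smooth strongly convex functions
-/

namespace Pool.Agent.Helper66.HB

open Filter Topology

/-- The class `F_{μ,L}` on `ℝ^d`: the `L`-smooth, `μ`-strongly convex functions. -/
def InClass (μ L : ℝ) {d : ℕ} (f : EuclideanSpace ℝ (Fin d) → ℝ) : Prop :=
  Differentiable ℝ f ∧ (∀ x y, ‖gradient f x - gradient f y‖ ≤ L * ‖x - y‖) ∧
    StrongConvexOn Set.univ μ f

/-- `x_0, x_1, x_2, …` is generated by the heavy-ball method with the tuning `(γ, β)` on `f`. -/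
def IsHB (γ β : ℝ) {d : ℕ} (f : EuclideanSpace ℝ (Fin d) → ℝ)
    (x : ℕ → EuclideanSpace ℝ (Fin d)) : Prop :=
  ∀ t, x (t + 2) = x (t + 1) - γ • gradient f (x (t + 1)) + β • (x (t + 1) - x t)

/-- `HB_{γ,β}` converges on `F_{μ,L}`: in every dimension, for every `f` in the class and all
starting points, the sequence tends to the minimiser of `f`. -/
def Converges (μ L γ β : ℝ) : Prop :=
  ∀ (d : ℕ), 1 ≤ d → ∀ f : EuclideanSpace ℝ (Fin d) → ℝ, InClass μ L f →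
    ∀ x : ℕ → EuclideanSpace ℝ (Fin d), IsHB γ β f x →
      ∃ xs, (∀ y, f xs ≤ f y) ∧ Tendsto x atTop (𝓝 xs)

/-- `HB_{γ,β}` converges on `F_{μ,L}` at an exponential rate that does not depend on the function,
on the starting points and on the dimension. -/
def ConvergesUniformly (μ L γ β : ℝ) : Prop :=
  ∃ C ρ : ℝ, 0 ≤ ρ ∧ ρ < 1 ∧ ∀ (d : ℕ), 1 ≤ d → ∀ f : EuclideanSpace ℝ (Fin d) → ℝ,
    InClass μ L f → ∀ x : ℕ → EuclideanSpace ℝ (Fin d), IsHB γ β f x →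
      ∃ xs, (∀ y, f xs ≤ f y) ∧ ∀ t, ‖x t - xs‖ ≤ C * ρ ^ t * (‖x 0 - xs‖ + ‖x 1 - xs‖)

/-- The cycle region: for some `K ≥ 3` there is a cycle of length `K`, i.e. a tuple
`c_0, …, c_{K-1}`, not all equal, such that the heavy-ball method on some `f` in `F_{μ,L}`,
started at `c_0, c_1`, produces the sequence `x_t = c_{t mod K}`. -/
def HasCycle (μ L γ β : ℝ) : Prop :=
  ∃ K : ℕ, 3 ≤ K ∧ ∃ d : ℕ, 1 ≤ d ∧ ∃ f : EuclideanSpace ℝ (Fin d) → ℝ, InClass μ L f ∧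
    ∃ c : ℕ → EuclideanSpace ℝ (Fin d), (∃ i < K, ∃ j < K, c i ≠ c j) ∧
      IsHB γ β f (fun t => c (t % K))

end Pool.Agent.Helper66.HB
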