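import Pool.Agent.Helper66.HB.Smooth
import Pool.Agent.Helper66.HB.Defs

namespace Pool.Agent.Helper66.HB

open scoped RealInnerProductSpace
open Filter Topology

section
variable {H : Type*} [NormedAddCommGroup H] [InnerProductSpace ℝ H] [CompleteSpace H]

theorem Cls.hasGradientAt {μ L : ℝ} {f : H → ℝ} {G : H → H} (h : Cls μ L f G) (x : H) :
    HasGradientAt f (G x) x := by
  rw [hasGradientAt_iff_isLittleO]
  have hO : (fun y => f y - f x - ⟪G x, y - x⟫) =O[𝓝 x] fun y => ‖y - x‖ ^ 2 := by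
    refine Asymptotics.IsBigO.of_bound (|μ / 2| + |L / 2|) (Eventually.of_forall fun y => ?_)
    obtain ⟨a, b⟩ := h x y
    rw [Real.norm_eq_abs, Real.norm_eq_abs, abs_of_nonneg (by positivity : (0:ℝ) ≤ ‖y - x‖ ^ 2)]
    have h0 : 0 ≤ ‖y - x‖ ^ 2 := by positivity
    rw [abs_le]
    constructor
    · nlinarith [neg_abs_le (μ / 2), abs_nonneg (L / 2), mul_nonneg (abs_nonneg (L/2)) h0,
        mul_le_mul_of_nonneg_right (neg_abs_le (μ / 2)) h0]
    · nlinarith [le_abs_self (L / 2), abs_nonneg (μ / 2), mul_nonneg (abs_nonneg (μ/2)) h0,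
        mul_le_mul_of_nonneg_right (le_abs_self (L / 2)) h0]
  refine hO.trans_isLittleO ?_
  have : (fun y => ‖y - x‖ ^ 2) =o[𝓝 x] fun y => ‖y - x‖ := by
    have h1 : (fun y : H => ‖y - x‖) =o[𝓝 x] fun _ => (1 : ℝ) := by
      rw [Asymptotics.isLittleO_one_iff]
      have : Continuous fun y : H => ‖y - x‖ := by fun_prop
      simpa using this.tendsto x
    have h2 := h1.mul_isBigO (Asymptotics.isBigO_refl (fun y : H => ‖y - x‖) (𝓝 x))
    simpa [pow_two] using h2
  exact this.of_norm_right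

theorem Cls.gradient_eq {μ L : ℝ} {f : H → ℝ} {G : H → H} (h : Cls μ L f G) (x : H) :
    gradient f x = G x := (h.hasGradientAt x).gradient

theorem Cls.differentiable {μ L : ℝ} {f : H → ℝ} {G : H → H} (h : Cls μ L f G) :
    Differentiable ℝ f := fun x => (h.hasGradientAt x).hasFDerivAt.differentiableAt

/-- restriction to a line -/
theorem line_deriv {f : H → ℝ} (hf : Differentiable ℝ f) (x v : H) (t : ℝ) :
    HasDerivAt (fun s : ℝ => f (x + s • v)) ⟪gradient f (x + t • v), v⟫ t := by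
  have h1 : HasGradientAt f (gradient f (x + t • v)) (x + t • v) :=
    (hf (x + t • v)).hasGradientAt
  have h2 : HasDerivAt (fun s : ℝ => x + s • v) v t := by
    simpa using ((hasDerivAt_id t).smul_const v).const_add x
  exact h1.hasFDerivAt.comp_hasDerivAt t h2

theorem cls_of_smooth {μ L : ℝ} {f : H → ℝ} (hf : Differentiable ℝ f)
    (hL : ∀ x y, ‖gradient f x - gradient f y‖ ≤ L * ‖x - y‖)
    (hc : StrongConvexOn Set.univ μ f) : Cls μ L f (gradient f) := by
  intro x y
  set v := y - x with hv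
  have hy : x + (1:ℝ) • v = y := by rw [hv]; module
  have hx : x + (0:ℝ) • v = x := by module
  constructor
  · -- strong convexity
    have hd := line_deriv hf x v 0
    rw [hx] at hd
    have hs := hd.tendsto_slope_zero_right
    -- slope bound
    have hb : ∀ t : ℝ, 0 < t → t ≤ 1 →
        t⁻¹ • (f (x + (0 + t) • v) - f (x + (0:ℝ) • v)) ≤
          f y - f x - (1 - t) * (μ / 2 * ‖v‖ ^ 2) := by
      intro t ht ht1
      have := hc.2 (Set.mem_univ x) (Set.mem_univ y) (by linarith : (0:ℝ) ≤ 1 - t) ht.le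
        (by ring : (1 - t) + t = 1)
      have e : (1 - t) • x + t • y = x + (0 + t) • v := by rw [hv]; module
      rw [e] at this
      simp only [smul_eq_mul] at this
      rw [norm_sub_rev] at this
      rw [← hv] at this
      rw [hx, smul_eq_mul, inv_mul_le_iff₀ ht]
      nlinarith
    have hlim : Tendsto (fun t : ℝ => f y - f x - (1 - t) * (μ / 2 * ‖v‖ ^ 2)) (𝓝[>] 0)
        (𝓝 (f y - f x - (1 - 0) * (μ / 2 * ‖v‖ ^ 2))) := by
      have : Continuous fun t : ℝ => f y - f x - (1 - t) * (μ / 2 * ‖v‖ ^ 2) := by fun_prop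
      exact (this.tendsto 0).mono_left nhdsWithin_le_nhds
    have hle := le_of_tendsto_of_tendsto hs hlim (by
      have : Set.Ioc (0:ℝ) 1 ∈ 𝓝[>] (0:ℝ) := Ioc_mem_nhdsGT one_pos
      filter_upwards [this] with t ht
      exact hb t ht.1 ht.2)
    linarith
  · -- descent lemma
    have key : ∀ t : ℝ, HasDerivAt (fun s : ℝ => f (x + s • v) - f x - s * ⟪gradient f x, v⟫
        - L / 2 * (s ^ 2 * ‖v‖ ^ 2))
        (⟪gradient f (x + t • v), v⟫ - ⟪gradient f x, v⟫ - L / 2 * (2 * t * ‖v‖ ^ 2)) t := by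
      intro t
      have h1 := line_deriv hf x v t
      have h2 : HasDerivAt (fun s : ℝ => s * ⟪gradient f x, v⟫) ⟪gradient f x, v⟫ t := by
        simpa using (hasDerivAt_id t).mul_const ⟪gradient f x, v⟫
      have h3 : HasDerivAt (fun s : ℝ => L / 2 * (s ^ 2 * ‖v‖ ^ 2)) (L / 2 * (2 * t * ‖v‖ ^ 2)) t := by
        have := ((hasDerivAt_pow 2 t).mul_const (‖v‖ ^ 2)).const_mul (L / 2)
        simpa using this
      exact ((h1.sub_const _).sub h2).sub h3
    have anti : AntitoneOn (fun s : ℝ => f (x + s • v) - f x - s * ⟪gradient f x, v⟫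
        - L / 2 * (s ^ 2 * ‖v‖ ^ 2)) (Set.Icc 0 1) := by
      apply antitoneOn_of_deriv_nonpos (convex_Icc 0 1)
      · exact (fun t _ => (key t).continuousAt.continuousWithinAt)
      · exact (fun t _ => (key t).differentiableAt.differentiableWithinAt)
      · intro t ht
        rw [interior_Icc] at ht
        rw [(key t).deriv]
        have h1 : ⟪gradient f (x + t • v), v⟫ - ⟪gradient f x, v⟫ ≤ (L * (t * ‖v‖)) * ‖v‖ := by
          rw [← inner_sub_left]
          refine (real_inner_le_norm _ _).trans ?_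
          gcongr
          have := hL (x + t • v) x
          rwa [add_sub_cancel_left, norm_smul, Real.norm_eq_abs, abs_of_pos ht.1] at this
        nlinarith
    have := anti (Set.left_mem_Icc.2 zero_le_one) (Set.right_mem_Icc.2 zero_le_one) zero_le_one
    simp only [hy, hx, one_pow, one_mul, zero_mul, sub_self, sub_zero, mul_zero, ne_eq,
      OfNat.ofNat_ne_zero, not_false_eq_true, zero_pow] at this
    linarith

end

theorem InClass.cls {μ L : ℝ} {d : ℕ} {f : EuclideanSpace ℝ (Fin d) → ℝ} (h : InClass μ L f) :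
    Cls μ L f (gradient f) := cls_of_smooth h.1 h.2.1 h.2.2

theorem Cls.inClass {μ L : ℝ} (hμ : 0 ≤ μ) (hL : μ < L) {d : ℕ}
    {f : EuclideanSpace ℝ (Fin d) → ℝ} {G : EuclideanSpace ℝ (Fin d) → EuclideanSpace ℝ (Fin d)}
    (h : Cls μ L f G) : InClass μ L f := by
  refine ⟨h.differentiable, fun x y => ?_, h.strong⟩
  rw [h.gradient_eq, h.gradient_eq]
  exact h.lipschitz hμ hL x y

end Pool.Agent.Helper66.HB
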