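import Pool.Agent.Helper66.HB.Perturb
import Pool.Agent.Helper66.HB.Grad

namespace Pool.Agent.Helper66.HB

open scoped RealInnerProductSpace
open Filter Topology

/-- direct sums of functions of the class -/
theorem cls_sum {μ L : ℝ} {E : Type*} [NormedAddCommGroup E] [InnerProductSpace ℝ E]
    {f : E → ℝ} {G : E → E} (h : Cls μ L f G) (κ : Type*) [Fintype κ] :
    Cls μ L (fun y : PiLp 2 (fun _ : κ => E) => ∑ p, f (y p))
      (fun y => WithLp.toLp 2 (fun p => G (y p))) := by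
  intro x y
  have e1 : ‖y - x‖ ^ 2 = ∑ p, ‖y p - x p‖ ^ 2 := by
    rw [PiLp.norm_sq_eq_of_L2]; rfl
  have e2 : ⟪(WithLp.toLp 2 (fun p => G (x p)) : PiLp 2 (fun _ : κ => E)), y - x⟫ =
      ∑ p, ⟪G (x p), y p - x p⟫ := by
    rw [PiLp.inner_apply]; rfl
  simp only
  rw [e1, e2, Finset.mul_sum, Finset.mul_sum, ← Finset.sum_sub_distrib, ← Finset.sum_sub_distrib]
  exact ⟨Finset.sum_le_sum fun p _ => (h (x p) (y p)).1,
    Finset.sum_le_sum fun p _ => (h (x p) (y p)).2⟩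

/-- transport by a linear isometry -/
theorem cls_transport {μ L : ℝ} {H H' : Type*} [NormedAddCommGroup H] [InnerProductSpace ℝ H]
    [NormedAddCommGroup H'] [InnerProductSpace ℝ H'] (e : H ≃ₗᵢ[ℝ] H')
    {f : H → ℝ} {G : H → H} (h : Cls μ L f G) :
    Cls μ L (fun y => f (e.symm y)) (fun y => e (G (e.symm y))) := by
  intro x y
  have h1 := h (e.symm x) (e.symm y)
  have e1 : ‖e.symm y - e.symm x‖ = ‖y - x‖ := by
    rw [← map_sub, LinearIsometryEquiv.norm_map]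
  have e2 : ⟪e (G (e.symm x)), y - x⟫ = ⟪G (e.symm x), e.symm y - e.symm x⟫ := by
    rw [← LinearIsometryEquiv.inner_map_map e (G (e.symm x)), map_sub]
    simp
  simp only
  rw [e2, ← e1]
  exact h1

/-- From a periodic sequence in a space of the form `⊕ E` to a cycle of `HB`. -/
theorem cycle_of_gradient {μ L γ β : ℝ} (hμ : 0 < μ) (hL : μ < L) (hγ : γ ≠ 0)
    {H : Type} [NormedAddCommGroup H] [InnerProductSpace ℝ H] [FiniteDimensional ℝ H]
    {f : H → ℝ} {G : H → H} (hf : Cls μ L f G) {K : ℕ} [NeZero K] (y : ZMod K → H)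
    (hy : ∀ t, G (y t) = γ⁻¹ • ((1 + β) • y t - y (t + 1) - β • y (t - 1)))
    {r : ZMod K} (hr : y r ≠ y 0) : HasCycle μ L γ β := by
  have hr0 : r ≠ 0 := by rintro rfl; exact hr rfl
  have hK : 2 ≤ K := by
    have hK0 : K ≠ 0 := NeZero.ne K
    by_contra hcon
    have : K = 1 := by omega
    subst this
    exact hr0 (Subsingleton.elim _ _)
  set e := (stdOrthonormalBasis ℝ H).repr with he
  have hcls := cls_transport e hf
  have : Nontrivial H := ⟨⟨_, _, hr⟩⟩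
  refine ⟨2 * K, by omega, Module.finrank ℝ H, Module.finrank_pos, _, hcls.inClass hμ.le hL,
    fun i => e (y (i : ZMod K)), ⟨r.val, ?_, 0, by omega, ?_⟩, ?_⟩
  · have := ZMod.val_lt r
    omega
  · simp only [ZMod.natCast_val, ZMod.cast_id', id_eq, Nat.cast_zero, ne_eq,
      EmbeddingLike.apply_eq_iff_eq]
    exact hr
  · intro t
    have hcast : ∀ s : ℕ, ((s % (2 * K) : ℕ) : ZMod K) = (s : ZMod K) := by
      intro s
      rw [ZMod.natCast_eq_natCast_iff]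
      exact (Nat.mod_modEq s (2 * K)).of_mul_left 2
    simp only [hcast]
    rw [hcls.gradient_eq]
    simp only [LinearIsometryEquiv.symm_apply_apply]
    rw [hy, ← map_sub, ← map_smul, ← map_smul, ← map_sub, ← map_add]
    congr 1
    have e1 : ((t + 2 : ℕ) : ZMod K) = ((t + 1 : ℕ) : ZMod K) + 1 := by push_cast; ring
    have e2 : ((t : ℕ) : ZMod K) = ((t + 1 : ℕ) : ZMod K) - 1 := by push_cast; ring
    rw [smul_smul, mul_inv_cancel₀ hγ, one_smul, e1]
    have e3 : y ((t : ℕ) : ZMod K) = y (((t + 1 : ℕ) : ZMod K) - 1) := by rw [← e2]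
    rw [e3]
    module

theorem cycle_of_family {μ L μ' L' γ β : ℝ} (hμ' : 0 < μ') (h1 : μ' < μ) (h2 : μ < L)
    (h3 : L < L') (hγ : γ ≠ 0) :
    ∃ B : ℝ, 1 ≤ B ∧ ∀ (E : Type) [NormedAddCommGroup E] [InnerProductSpace ℝ E]
      [FiniteDimensional ℝ E] (f : E → ℝ) (G : E → E), Cls μ L f G →
      ∀ (K : ℕ) [NeZero K] (ι : Type) [Fintype ι] (Y : ZMod K → ι → E),
      (∀ r : ZMod K, r ≠ 0 → B * ∑ a, ∑ u, ‖γ⁻¹ • ((1 + β) • Y a u - Y (a + 1) u - β • Y (a - 1) u)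
          - G (Y a u)‖ ^ 2 ≤ ∑ a, ∑ u, ‖Y (a + r) u - Y a u‖ ^ 2) →
      (∃ r : ZMod K, 0 < ∑ a, ∑ u, ‖Y (a + r) u - Y a u‖ ^ 2) →
      HasCycle μ' L' γ β := by
  obtain ⟨A, hA1, hA⟩ := perturbed_interp hμ' h1 h2 h3
  refine ⟨A ^ 2, by nlinarith, ?_⟩
  intro E _ _ _ f G hf K _ ι _ Y hsep ⟨r, hr⟩
  set T := ∑ a, ∑ u, ‖γ⁻¹ • ((1 + β) • Y a u - Y (a + 1) u - β • Y (a - 1) u) - G (Y a u)‖ ^ 2
    with hT
  have hT0 : 0 ≤ T := by rw [hT]; positivity
  let y : ZMod K → PiLp 2 (fun _ : ZMod K × ι => E) := fun t =>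
    WithLp.toLp 2 (fun p => Y (t - p.1) p.2)
  have hyapp : ∀ t p, y t p = Y (t - p.1) p.2 := fun t p => rfl
  let g : ZMod K → PiLp 2 (fun _ : ZMod K × ι => E) := fun t =>
    γ⁻¹ • ((1 + β) • y t - y (t + 1) - β • y (t - 1))
  have hdist : ∀ s t, ‖y s - y t‖ ^ 2 = ∑ a, ∑ u, ‖Y (a + (s - t)) u - Y a u‖ ^ 2 := by
    intro s t
    rw [PiLp.norm_sq_eq_of_L2, Fintype.sum_prod_type]
    rw [← Equiv.sum_comp (Equiv.subLeft t)]
    refine Finset.sum_congr rfl fun v _ => Finset.sum_congr rfl fun u _ => ?_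
    have e1 : s - Equiv.subLeft t v = v + (s - t) := by rw [Equiv.subLeft_apply]; ring
    have e2 : t - Equiv.subLeft t v = v := by rw [Equiv.subLeft_apply]; ring
    change ‖Y (s - Equiv.subLeft t v) u - Y (t - Equiv.subLeft t v) u‖ ^ 2 = _
    rw [e1, e2]
  have herr : ∀ t, ‖g t - WithLp.toLp 2 (fun p => G (y t p))‖ ^ 2 = T := by
    intro t
    rw [PiLp.norm_sq_eq_of_L2, Fintype.sum_prod_type, hT]
    rw [← Equiv.sum_comp (Equiv.subLeft t)]
    refine Finset.sum_congr rfl fun v _ => Finset.sum_congr rfl fun u _ => ?_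
    have e1 : t + 1 - Equiv.subLeft t v = v + 1 := by rw [Equiv.subLeft_apply]; ring
    have e2 : t - 1 - Equiv.subLeft t v = v - 1 := by rw [Equiv.subLeft_apply]; ring
    have e3 : t - Equiv.subLeft t v = v := by rw [Equiv.subLeft_apply]; ring
    change ‖γ⁻¹ • ((1 + β) • Y (t - Equiv.subLeft t v) u - Y (t + 1 - Equiv.subLeft t v) u
      - β • Y (t - 1 - Equiv.subLeft t v) u) - G (Y (t - Equiv.subLeft t v) u)‖ ^ 2 = _
    rw [e1, e2, e3]
  have hF := cls_sum hf (ZMod K × ι)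
  obtain ⟨f', G', hc, hG'⟩ := hA _ _ _ hF (ZMod K) y g (Real.sqrt T) (Real.sqrt_nonneg _)
    (by
      intro t
      have := herr t
      rw [← this, Real.sqrt_sq (norm_nonneg _)])
    (by
      intro s t hst
      have h4 := hsep (s - t) (sub_ne_zero.2 hst)
      rw [← hdist s t] at h4
      have h5 : (A * Real.sqrt T) ^ 2 ≤ ‖y s - y t‖ ^ 2 := by
        rw [mul_pow, Real.sq_sqrt hT0]; exact h4
      exact le_of_sq_le_sq h5 (norm_nonneg _))
  refine cycle_of_gradient hμ' (by linarith) hγ hc y (fun t => hG' t) (r := r) ?_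
  intro heq
  have := hdist r 0
  rw [heq, sub_self, norm_zero, sub_zero] at this
  rw [← this] at hr
  norm_num at hr

end Pool.Agent.Helper66.HB
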