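import Pool.Agent.Helper66.HB.Stable

namespace Pool.Agent.Helper66.HB

open scoped RealInnerProductSpace
open Filter Topology

theorem exists_min {μ L : ℝ} (hμ : 0 < μ) (hL : μ < L) {E : Type} [NormedAddCommGroup E]
    [InnerProductSpace ℝ E] [FiniteDimensional ℝ E] {f : E → ℝ} {G : E → E} (h : Cls μ L f G) :
    ∃ xs, (∀ y, f xs ≤ f y) ∧ G xs = 0 := by
  have hcont : Continuous f := h.differentiable.continuous
  have hlim : Tendsto f (cocompact E) atTop := by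
    have h1 : ∀ y, ‖y‖ + (f 0 - (‖G 0‖ + 1) ^ 2 / (2 * μ)) ≤ f y := by
      intro y
      have h2 := (h 0 y).1
      have h3 : -(‖G 0‖ * ‖y‖) ≤ ⟪G 0, y - 0⟫ := by
        rw [sub_zero]
        exact (abs_le.1 (abs_real_inner_le_norm (G 0) y)).1
      rw [sub_zero] at h2 h3
      have h4 : (‖G 0‖ + 1) * ‖y‖ ≤ μ / 2 * ‖y‖ ^ 2 + (‖G 0‖ + 1) ^ 2 / (2 * μ) := by
        have h5 : μ / 2 * ‖y‖ ^ 2 + (‖G 0‖ + 1) ^ 2 / (2 * μ) - (‖G 0‖ + 1) * ‖y‖ =
            (μ * ‖y‖ - (‖G 0‖ + 1)) ^ 2 / (2 * μ) := by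
          field_simp; ring
        have h6 : 0 ≤ (μ * ‖y‖ - (‖G 0‖ + 1)) ^ 2 / (2 * μ) := by positivity
        linarith
      linarith
    refine tendsto_atTop_mono h1 ?_
    exact tendsto_atTop_add_const_right _ _ tendsto_norm_cocompact_atTop
  obtain ⟨xs, hxs⟩ := hcont.exists_forall_le hlim
  refine ⟨xs, hxs, ?_⟩
  have hL0 : 0 < L := by linarith
  have h1 := (h xs (xs - L⁻¹ • G xs)).2
  have h2 := hxs (xs - L⁻¹ • G xs)
  have e1 : xs - L⁻¹ • G xs - xs = -(L⁻¹ • G xs) := by abel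
  rw [e1, norm_neg, norm_smul, inner_neg_right, inner_smul_right, real_inner_self_eq_norm_sq,
    Real.norm_eq_abs, mul_pow, sq_abs] at h1
  have h3 : L / 2 * (L⁻¹ ^ 2 * ‖G xs‖ ^ 2) = L⁻¹ / 2 * ‖G xs‖ ^ 2 := by
    field_simp
  rw [h3] at h1
  have h4 : L⁻¹ * ‖G xs‖ ^ 2 ≤ 0 := by nlinarith
  have h5 : 0 < L⁻¹ := by positivity
  have h6 : ‖G xs‖ ^ 2 ≤ 0 := by
    by_contra h7
    push Not at h7
    have := mul_pos h5 h7
    linarith
  have h7 : ‖G xs‖ = 0 := by nlinarith [norm_nonneg (G xs), sq_nonneg ‖G xs‖]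
  exact norm_eq_zero.1 h7

theorem Cls.translate {μ L : ℝ} {E : Type*} [NormedAddCommGroup E]
    [InnerProductSpace ℝ E] {f : E → ℝ} {G : E → E} (h : Cls μ L f G) (a : E) :
    Cls μ L (fun x => f (x + a)) (fun x => G (x + a)) := by
  intro x y
  have := h (x + a) (y + a)
  rwa [add_sub_add_right_eq_sub] at this

theorem Orb.translate {γ β : ℝ} {E : Type} [NormedAddCommGroup E]
    [InnerProductSpace ℝ E] {G : E → E} {x : ℕ → E} (h : Orb γ β G x) (a : E) :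
    Orb γ β (fun z => G (z + a)) (fun t => x t - a) := by
  intro t
  have := h t
  simp only [sub_add_cancel]
  rw [this]
  module

theorem uniform_of_no_cycle {μ L μ' L' γ β : ℝ} (hμ' : 0 < μ') (h1 : μ' < μ) (h2 : μ < L)
    (h3 : L < L') (hβ : |β| < 1) (hγ : 0 < γ) (hγL : γ * L < 2 * (1 + β))
    (hno : ¬ HasCycle μ' L' γ β) : ConvergesUniformly μ L γ β := by
  obtain ⟨C, hC, hst⟩ := stab_all hμ' h1 h2 h3 hβ hγ hγL hno
  obtain ⟨D, ρ, hD, hρ0, hρ1, hexp⟩ := stab_exp (γ := γ) (β := β) C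
  refine ⟨D, ρ, hρ0.le, hρ1, ?_⟩
  intro d _ f hf x hx
  have hcls := hf.cls
  obtain ⟨xs, hmin, hG⟩ := exists_min (by linarith : 0 < μ) h2 hcls
  refine ⟨xs, hmin, fun t => ?_⟩
  have horb : Orb γ β (gradient f) x := hx
  have h4 := hst _ _ _ (hcls.translate xs) (by simpa using hG)
  exact hexp _ _ h4 _ (horb.translate xs) t

theorem ConvergesUniformly.converges {μ L γ β : ℝ} (h : ConvergesUniformly μ L γ β) :
    Converges μ L γ β := by
  obtain ⟨C, ρ, h0, h1, h2⟩ := h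
  intro d hd f hf x hx
  obtain ⟨xs, hmin, hb⟩ := h2 d hd f hf x hx
  refine ⟨xs, hmin, ?_⟩
  rw [tendsto_iff_norm_sub_tendsto_zero]
  have h3 : Tendsto (fun t : ℕ => C * ρ ^ t * (‖x 0 - xs‖ + ‖x 1 - xs‖)) atTop (𝓝 0) := by
    have := ((tendsto_pow_atTop_nhds_zero_of_lt_one h0 h1).const_mul C).mul_const
      (‖x 0 - xs‖ + ‖x 1 - xs‖)
    simpa using this
  exact squeeze_zero (fun t => norm_nonneg _) hb h3

theorem stab_of_uniform {μ L γ β : ℝ} (hμ : 0 < μ) (hL : μ < L)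
    (h : ConvergesUniformly μ L γ β) : ∃ C : ℝ, 0 < C ∧ ∀ d : ℕ, 1 ≤ d →
      ∀ (f : EuclideanSpace ℝ (Fin d) → ℝ) (G : EuclideanSpace ℝ (Fin d) →
        EuclideanSpace ℝ (Fin d)), Cls μ L f G → G 0 = 0 → Stab γ β C G := by
  obtain ⟨C, ρ, h0, h1, h2⟩ := h
  have hρ2 : ρ ^ 2 < 1 := by nlinarith
  refine ⟨2 * C ^ 2 / (1 - ρ ^ 2) + 1, ?_, ?_⟩
  · have : 0 ≤ 2 * C ^ 2 / (1 - ρ ^ 2) := div_nonneg (by positivity) (by linarith)
    linarith
  intro d hd f G hf hG x hx N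
  have hin : InClass μ L f := hf.inClass hμ.le hL
  have hx' : IsHB γ β f x := by
    intro t
    rw [hf.gradient_eq]
    exact hx t
  obtain ⟨xs, hmin, hb⟩ := h2 d hd f hin x hx'
  have hxs : xs = 0 := by
    have h3 := (hf 0 xs).1
    rw [hG, inner_zero_left] at h3
    have h4 := hmin 0
    have h5 : μ / 2 * ‖xs - 0‖ ^ 2 ≤ 0 := by linarith
    have h6 : ‖xs - 0‖ ^ 2 ≤ 0 := by
      by_contra h7
      push Not at h7
      have : 0 < μ / 2 * ‖xs - 0‖ ^ 2 := by positivity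
      linarith
    have h7 : ‖xs - 0‖ = 0 := by nlinarith [norm_nonneg (xs - 0), sq_nonneg ‖xs - 0‖]
    simpa using h7
  subst hxs
  simp only [sub_zero] at hb
  have h5 : ∀ t, ‖x t‖ ^ 2 ≤ (2 * C ^ 2 * (‖x 0‖ ^ 2 + ‖x 1‖ ^ 2)) * (ρ ^ 2) ^ t := by
    intro t
    have h6 := hb t
    have h7 : ‖x t‖ ^ 2 ≤ (C * ρ ^ t * (‖x 0‖ + ‖x 1‖)) ^ 2 := by
      gcongr
    have h8 : (‖x 0‖ + ‖x 1‖) ^ 2 ≤ 2 * (‖x 0‖ ^ 2 + ‖x 1‖ ^ 2) := by
      nlinarith [sq_nonneg (‖x 0‖ - ‖x 1‖)]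
    calc ‖x t‖ ^ 2 ≤ (C * ρ ^ t * (‖x 0‖ + ‖x 1‖)) ^ 2 := h7
      _ = (C ^ 2 * (ρ ^ t) ^ 2) * (‖x 0‖ + ‖x 1‖) ^ 2 := by ring
      _ ≤ (C ^ 2 * (ρ ^ t) ^ 2) * (2 * (‖x 0‖ ^ 2 + ‖x 1‖ ^ 2)) := by gcongr
      _ = _ := by rw [← pow_mul, ← pow_mul, mul_comm t 2]; ring
  have hgeo : ∑ t ∈ Finset.range N, (ρ ^ 2) ^ t ≤ 1 / (1 - ρ ^ 2) := by
    have hs := (summable_geometric_of_lt_one (sq_nonneg ρ) hρ2)
    have := hs.sum_le_tsum (Finset.range N) (fun t _ => by positivity)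
    rwa [tsum_geometric_of_lt_one (sq_nonneg ρ) hρ2, ← one_div] at this
  calc ∑ t ∈ Finset.range N, ‖x t‖ ^ 2
      ≤ ∑ t ∈ Finset.range N, (2 * C ^ 2 * (‖x 0‖ ^ 2 + ‖x 1‖ ^ 2)) * (ρ ^ 2) ^ t :=
        Finset.sum_le_sum fun t _ => h5 t
    _ = (2 * C ^ 2 * (‖x 0‖ ^ 2 + ‖x 1‖ ^ 2)) * ∑ t ∈ Finset.range N, (ρ ^ 2) ^ t := by
        rw [Finset.mul_sum]
    _ ≤ (2 * C ^ 2 * (‖x 0‖ ^ 2 + ‖x 1‖ ^ 2)) * (1 / (1 - ρ ^ 2)) := by gcongr
    _ = 2 * C ^ 2 / (1 - ρ ^ 2) * (‖x 0‖ ^ 2 + ‖x 1‖ ^ 2) := by ring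
    _ ≤ _ := by
        have : 0 ≤ ‖x 0‖ ^ 2 + ‖x 1‖ ^ 2 := by positivity
        nlinarith

theorem no_periodic {K : ℕ} (hK : 3 ≤ K) {E : Type*} [NormedAddCommGroup E]
    {c : ℕ → E} {xs : E} (h : Tendsto (fun t => c (t % K)) atTop (𝓝 xs)) :
    ∀ i < K, c i = xs := by
  intro i hi
  have h1 : Tendsto (fun n : ℕ => c ((i + K * n) % K)) atTop (𝓝 xs) := by
    have h2 : Tendsto (fun n : ℕ => i + K * n) atTop atTop := by
      apply tendsto_atTop_mono (f := fun n : ℕ => n)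
      · intro n
        have : n ≤ K * n := Nat.le_mul_of_pos_left n (by omega)
        omega
      · exact tendsto_id
    exact h.comp h2
  have h3 : (fun n : ℕ => c ((i + K * n) % K)) = fun _ => c i := by
    funext n
    rw [Nat.add_mul_mod_self_left, Nat.mod_eq_of_lt hi]
  rw [h3] at h1
  exact tendsto_nhds_unique tendsto_const_nhds h1

theorem HasCycle.not_converges {μ L γ β : ℝ} (h : HasCycle μ L γ β) : ¬ Converges μ L γ β := by
  intro hc
  obtain ⟨K, hK, d, hd, f, hf, c, ⟨i, hi, j, hj, hij⟩, hx⟩ := h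
  obtain ⟨xs, -, ht⟩ := hc d hd f hf _ hx
  exact hij ((no_periodic hK ht i hi).trans (no_periodic hK ht j hj).symm)

theorem InClass.mono {μ L μ' L' : ℝ} (h1 : μ' ≤ μ) (h2 : L ≤ L') {d : ℕ}
    {f : EuclideanSpace ℝ (Fin d) → ℝ} (h : InClass μ L f) : InClass μ' L' f := by
  refine ⟨h.1, fun x y => (h.2.1 x y).trans ?_, h.2.2.mono h1⟩
  gcongr

theorem HasCycle.mono {μ L μ' L' γ β : ℝ} (h1 : μ' ≤ μ) (h2 : L ≤ L')
    (h : HasCycle μ L γ β) : HasCycle μ' L' γ β := by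
  obtain ⟨K, hK, d, hd, f, hf, r⟩ := h
  exact ⟨K, hK, d, hd, f, hf.mono h1 h2, r⟩

theorem no_cycle_of_uniform {μ L γ β : ℝ} (hμ : 0 < μ) (hL : μ < L) (hβ : β ^ 2 ≤ 1)
    (h : ConvergesUniformly μ L γ β) :
    ∃ μ' L' : ℝ, 0 < μ' ∧ μ' < μ ∧ L < L' ∧ ¬ HasCycle μ' L' γ β := by
  obtain ⟨C, hC, hst⟩ := stab_of_uniform hμ hL h
  have hL0 : 0 < L := by linarith
  obtain ⟨δ, C', hδ, hC', hpert⟩ := stab_perturb (γ := γ) hβ hL0.le hC
  set κ := (μ + L) / 2 with hκ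
  set s := min (1 / 2) (δ / (3 * L)) with hs
  have hs0 : 0 < s := by positivity
  have hs1 : s ≤ 1 / 2 := min_le_left _ _
  have hs2 : s * (3 * L) ≤ δ := by
    have : s ≤ δ / (3 * L) := min_le_right _ _
    rwa [le_div_iff₀ (by positivity)] at this
  have h1s : 0 < 1 - s := by linarith
  set μ' := max (μ / 2) ((μ - s * κ) / (1 - s)) with hμ'
  set L' := (L - s * κ) / (1 - s) with hL'
  have hμ'0 : 0 < μ' := lt_of_lt_of_le (by positivity) (le_max_left _ _)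
  have hμ'1 : μ' < μ := by
    rw [hμ', max_lt_iff]
    refine ⟨by linarith, ?_⟩
    rw [div_lt_iff₀ h1s]
    have : s * μ < s * κ := by apply mul_lt_mul_of_pos_left _ hs0; rw [hκ]; linarith
    linarith
  have hL'1 : L < L' := by
    rw [hL', lt_div_iff₀ h1s]
    have : s * κ < s * L := by apply mul_lt_mul_of_pos_left _ hs0; rw [hκ]; linarith
    linarith
  have hL'2 : L' ≤ 2 * L := by
    rw [hL', div_le_iff₀ h1s]
    have : 0 < s * κ := by positivity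
    nlinarith
  have hμL' : μ' < L' := by linarith
  refine ⟨μ', L', hμ'0, hμ'1, hL'1, ?_⟩
  rintro ⟨K, hK, d, hd, f, hf, c, ⟨i, hi, j, hj, hij⟩, hx⟩
  have hcls := hf.cls
  obtain ⟨xs, hmin, hG⟩ := exists_min hμ'0 hμL' hcls
  have horb : Orb γ β (gradient f) (fun t => c (t % K)) := hx
  have horb' := horb.translate xs
  set G₁ : EuclideanSpace ℝ (Fin d) → EuclideanSpace ℝ (Fin d) :=
    fun z => gradient f (z + xs) with hG₁
  have hcls1 : Cls μ' L' (fun x => f (x + xs)) G₁ := hcls.translate xs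
  have hG10 : G₁ 0 = 0 := by simpa [hG₁] using hG
  have hcls2 := (cls_combo (κ := κ) (s := 1 - s) h1s.le hcls1)
  have hm1 : μ ≤ (1 - s) * μ' + (1 - (1 - s)) * κ := by
    have : (μ - s * κ) / (1 - s) ≤ μ' := le_max_right _ _
    rw [div_le_iff₀ h1s] at this
    linarith
  have hm2 : (1 - s) * L' + (1 - (1 - s)) * κ ≤ L := by
    have : L' * (1 - s) = L - s * κ := by rw [hL']; field_simp
    linarith
  have hcls3 := hcls2.mono hm1 hm2
  have hG20 : (fun x => (1 - s) • G₁ x + (1 - (1 - s)) • (κ • x)) 0 = 0 := by simp [hG10]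
  have hstab := hst d hd _ _ hcls3 hG20
  have hst' := hpert (EuclideanSpace ℝ (Fin d))
    (fun x => (1 - s) • G₁ x + (1 - (1 - s)) • (κ • x)) G₁
    (fun x => hcls3.norm_le hμ.le hL hG20 x) (fun x y => hcls3.lipschitz hμ.le hL x y)
    (fun x => by
      have e : G₁ x - ((1 - s) • G₁ x + (1 - (1 - s)) • (κ • x)) = s • (G₁ x - κ • x) := by
        module
      rw [e, norm_smul, Real.norm_eq_abs, abs_of_pos hs0]
      have h4 := hcls1.norm_le hμ'0.le hμL' hG10 x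
      have h5 : ‖G₁ x - κ • x‖ ≤ (3 * L) * ‖x‖ := by
        calc ‖G₁ x - κ • x‖ ≤ ‖G₁ x‖ + ‖κ • x‖ := norm_sub_le _ _
          _ ≤ L' * ‖x‖ + κ * ‖x‖ := by
              rw [norm_smul, Real.norm_eq_abs, abs_of_pos (by positivity : 0 < κ)]
              linarith
          _ = (L' + κ) * ‖x‖ := by ring
          _ ≤ (3 * L) * ‖x‖ := by
              gcongr
              rw [hκ]; linarith
      calc s * ‖G₁ x - κ • x‖ ≤ s * ((3 * L) * ‖x‖) := by gcongr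
        _ = (s * (3 * L)) * ‖x‖ := by ring
        _ ≤ δ * ‖x‖ := by gcongr) hstab
  have ht := (hst'.tendsto horb').2
  have ht2 : Tendsto (fun t => c (t % K)) atTop (𝓝 xs) := by
    have := ht.add_const xs
    simpa using this
  exact hij ((no_periodic hK ht2 i hi).trans (no_periodic hK ht2 j hj).symm)

/-! ### divergence outside the stability region of quadratics -/

theorem cls_quad (κ : ℝ) {E : Type*} [NormedAddCommGroup E] [InnerProductSpace ℝ E] :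
    Cls κ κ (fun x : E => κ / 2 * ‖x‖ ^ 2) (fun x => κ • x) := by
  intro x y
  have e1 : ‖y - x‖ ^ 2 = ‖y‖ ^ 2 - 2 * ⟪y, x⟫ + ‖x‖ ^ 2 := @norm_sub_sq_real _ _ _ _ _
  have e2 : ⟪κ • x, y - x⟫ = κ * (⟪y, x⟫ - ‖x‖ ^ 2) := by
    rw [inner_smul_left, inner_sub_right, real_inner_self_eq_norm_sq, real_inner_comm]
    simp
  simp only
  rw [e1, e2]
  constructor <;> linarith

theorem diverges_of_scalar {μ L γ β κ : ℝ} (hμ : 0 < μ) (hL : μ < L) (h1 : μ ≤ κ) (h2 : κ ≤ L)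
    (z : ℕ → ℝ) (hz : ∀ t, z (t + 2) = (1 + β - γ * κ) * z (t + 1) - β * z t)
    (hnot : ¬ Tendsto z atTop (𝓝 0)) : ¬ Converges μ L γ β := by
  intro hc
  have hcls : Cls μ L (fun x : EuclideanSpace ℝ (Fin 1) => κ / 2 * ‖x‖ ^ 2) (fun x => κ • x) :=
    (cls_quad κ).mono h1 h2
  set e : EuclideanSpace ℝ (Fin 1) := EuclideanSpace.single 0 1 with he
  have hen : ‖e‖ = 1 := by simp [he]
  obtain ⟨xs, hmin, ht⟩ := hc 1 le_rfl _ (hcls.inClass hμ.le hL) (fun t => z t • e) (by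
    intro t
    rw [hcls.gradient_eq]
    show z (t + 2) • e = z (t + 1) • e - γ • κ • z (t + 1) • e + β • (z (t + 1) • e - z t • e)
    rw [hz t]
    module)
  have hxs : xs = 0 := by
    have h3 := hmin 0
    simp only [norm_zero] at h3
    have hκ : 0 < κ := by linarith
    have h4 : ‖xs‖ ^ 2 ≤ 0 := by
      by_contra h5
      push Not at h5
      have : 0 < κ / 2 * ‖xs‖ ^ 2 := by positivity
      linarith
    have h7 : ‖xs‖ = 0 := by nlinarith [norm_nonneg xs, sq_nonneg ‖xs‖]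
    simpa using h7
  rw [hxs, tendsto_zero_iff_norm_tendsto_zero] at ht
  apply hnot
  rw [tendsto_zero_iff_norm_tendsto_zero]
  refine ht.congr fun t => ?_
  rw [norm_smul, hen, mul_one]

theorem diverges_of_root {μ L γ β κ r : ℝ} (hμ : 0 < μ) (hL : μ < L) (h1 : μ ≤ κ) (h2 : κ ≤ L)
    (hr : r ^ 2 = (1 + β - γ * κ) * r - β) (hr1 : 1 ≤ |r|) : ¬ Converges μ L γ β := by
  refine diverges_of_scalar hμ hL h1 h2 (fun t => r ^ t) (fun t => ?_) ?_
  · rw [pow_add, hr, pow_succ]; ring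
  · intro ht
    have h3 := ht.abs
    simp only [abs_zero, abs_pow] at h3
    have h4 : (1 : ℝ) ≤ 0 := ge_of_tendsto h3 (Eventually.of_forall fun t => one_le_pow₀ hr1)
    linarith

theorem diverges {μ L γ β : ℝ} (hμ : 0 < μ) (hL : μ < L)
    (h : ¬ (|β| < 1 ∧ 0 < γ ∧ γ * L < 2 * (1 + β))) : ¬ Converges μ L γ β := by
  by_cases hβ : |β| < 1
  · obtain ⟨hb1, hb2⟩ := abs_lt.1 hβ
    by_cases hγ : 0 < γ
    · have hγL : 2 * (1 + β) ≤ γ * L := by
        by_contra h1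
        push Not at h1
        exact h ⟨hβ, hγ, h1⟩
      set p := 1 + β - γ * L with hp
      have hp1 : p ≤ -(1 + β) := by linarith
      have hp2 : (1 - β) ^ 2 ≤ p ^ 2 - 4 * β := by nlinarith
      have hs : 1 - β ≤ Real.sqrt (p ^ 2 - 4 * β) := Real.le_sqrt_of_sq_le hp2
      have hs2 : Real.sqrt (p ^ 2 - 4 * β) ^ 2 = p ^ 2 - 4 * β :=
        Real.sq_sqrt (by nlinarith [sq_nonneg (1 - β)])
      refine diverges_of_root (κ := L) (r := (p - Real.sqrt (p ^ 2 - 4 * β)) / 2) hμ hL hL.le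
        le_rfl ?_ ?_
      · rw [← hp]
        linear_combination (1 / 4) * hs2
      · rw [le_abs]
        right
        linarith
    · push Not at hγ
      set p := 1 + β - γ * μ with hp
      have hp1 : 1 + β ≤ p := by
        have : γ * μ ≤ 0 := mul_nonpos_of_nonpos_of_nonneg hγ hμ.le
        linarith
      have hp2 : (1 - β) ^ 2 ≤ p ^ 2 - 4 * β := by nlinarith
      have hs : 1 - β ≤ Real.sqrt (p ^ 2 - 4 * β) := Real.le_sqrt_of_sq_le hp2
      have hs2 : Real.sqrt (p ^ 2 - 4 * β) ^ 2 = p ^ 2 - 4 * β :=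
        Real.sq_sqrt (by nlinarith [sq_nonneg (1 - β)])
      refine diverges_of_root (κ := μ) (r := (p + Real.sqrt (p ^ 2 - 4 * β)) / 2) hμ hL le_rfl
        hL.le ?_ ?_
      · rw [← hp]
        linear_combination (1 / 4) * hs2
      · rw [le_abs]
        left
        linarith
  · push Not at hβ
    set p := 1 + β - γ * μ with hp
    obtain ⟨z, hz, hz0, hz1⟩ := exists_orb γ β (fun x : ℝ => μ • x) 0 1
    have hrec : ∀ t, z (t + 2) = p * z (t + 1) - β * z t := by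
      intro t
      rw [hz t, hp]
      simp only [smul_eq_mul]
      ring
    refine diverges_of_scalar hμ hL le_rfl hL.le z hrec ?_
    intro ht
    have hV : ∀ t, z (t + 1) ^ 2 - p * (z (t + 1) * z t) + β * z t ^ 2 = β ^ t := by
      intro t
      induction t with
      | zero => rw [zero_add, hz0, hz1]; norm_num
      | succ t ih =>
        rw [show t + 1 + 1 = t + 2 from rfl, hrec t, pow_succ β t, ← ih]
        ring
    have ht1 := ht.comp (tendsto_add_atTop_nat 1)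
    have h3 : Tendsto (fun t => z (t + 1) ^ 2 - p * (z (t + 1) * z t) + β * z t ^ 2) atTop
        (𝓝 (0 ^ 2 - p * (0 * 0) + β * 0 ^ 2)) :=
      ((ht1.pow 2).sub ((ht1.mul ht).const_mul p)).add ((ht.pow 2).const_mul β)
    have h4 := h3.abs
    have h5 : (1 : ℝ) ≤ |0 ^ 2 - p * (0 * 0) + β * 0 ^ 2| := by
      refine ge_of_tendsto h4 (Eventually.of_forall fun t => ?_)
      rw [hV t, abs_pow]
      exact one_le_pow₀ hβ
    norm_num at h5

end Pool.Agent.Helper66.HB
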