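import Pool.Agent.Helper66.HB.Final

namespace Pool.Agent.Helper66.HB

open MeasureTheory

/-- For a fixed tuning the pairs `(μ, L)` for which there is no cycle, but there are cycles for
all strictly larger classes, form a null set. -/
theorem ae_threshold (γ β : ℝ) : ∀ᵐ p : ℝ × ℝ, 0 < p.1 → p.1 < p.2 → ¬ HasCycle p.1 p.2 γ β →
    ∃ μ' L' : ℝ, 0 < μ' ∧ μ' < p.1 ∧ p.2 < L' ∧ ¬ HasCycle μ' L' γ β := by
  set S : Set (Fin 2 → ℝ) := {v | ∃ μ L : ℝ, 0 < μ ∧ μ < L ∧ -μ ≤ v 0 ∧ L ≤ v 1 ∧
    HasCycle μ L γ β} with hS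
  have hup : IsUpperSet S := by
    rintro v w hvw ⟨μ, L, h1, h2, h3, h4, h5⟩
    exact ⟨μ, L, h1, h2, h3.trans (hvw 0), h4.trans (hvw 1), h5⟩
  have hnull := hup.null_frontier
  have hmp1 : MeasurePreserving (Prod.map (fun x : ℝ => -x) (fun x : ℝ => x))
      (volume : Measure (ℝ × ℝ)) volume :=
    (Measure.measurePreserving_neg (volume : Measure ℝ)).prod (MeasurePreserving.id volume)
  have hmp2 := (volume_preserving_finTwoArrow ℝ).symm
  have hmp := hmp2.comp hmp1
  have hnull2 := hmp.quasiMeasurePreserving.preimage_null hnull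
  rw [ae_iff]
  refine measure_mono_null ?_ hnull2
  intro p hp
  simp only [Set.mem_setOf_eq, Classical.not_imp, not_exists, not_and, not_not] at hp
  obtain ⟨hp0, hp1, hp2, hp3⟩ := hp
  set v : Fin 2 → ℝ := (MeasurableEquiv.finTwoArrow.symm ∘
    Prod.map (fun x : ℝ => -x) (fun x : ℝ => x)) p with hv
  have hv0 : v 0 = -p.1 := rfl
  have hv1 : v 1 = p.2 := rfl
  show v ∈ frontier S
  rw [frontier, Set.mem_sdiff]
  constructor
  · rw [Metric.mem_closure_iff]
    intro ε hε
    set η := min (ε / 2) (p.1 / 2) with hη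
    have hη0 : 0 < η := by positivity
    have hη1 : η ≤ ε / 2 := min_le_left _ _
    have hη2 : η ≤ p.1 / 2 := min_le_right _ _
    refine ⟨fun i => v i + η, ⟨p.1 - η, p.2 + η, by linarith, by linarith, ?_, ?_,
      hp3 _ _ (by linarith) (by linarith) (by linarith)⟩, ?_⟩
    · simp only [hv0]; linarith
    · simp only [hv1]; linarith
    · rw [dist_pi_lt_iff hε]
      intro i
      rw [Real.dist_eq]
      have : v i - (v i + η) = -η := by ring
      rw [this, abs_neg, abs_of_pos hη0]
      linarith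
  · intro hint
    rw [mem_interior_iff_mem_nhds, Metric.mem_nhds_iff] at hint
    obtain ⟨ε, hε, hsub⟩ := hint
    have hmem : (fun i => v i - ε / 2) ∈ S := by
      apply hsub
      rw [Metric.mem_ball, dist_pi_lt_iff hε]
      intro i
      rw [Real.dist_eq]
      have : v i - ε / 2 - v i = -(ε / 2) := by ring
      rw [this, abs_neg, abs_of_pos (by positivity)]
      linarith
    obtain ⟨μ, L, h1, h2, h3, h4, h5⟩ := hmem
    simp only [hv0, hv1] at h3 h4
    exact hp2 (h5.mono (by linarith) (by linarith))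

end Pool.Agent.Helper66.HB
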