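import Pool.Agent.Helper66.HB.Conv

namespace Pool.Agent.Helper66.HB

open scoped RealInnerProductSpace
open Filter Topology

section

variable {E : Type} [NormedAddCommGroup E] [InnerProductSpace ℝ E]

theorem abs_beta {β : ℝ} (hβ : β ^ 2 ≤ 1) : |β| ≤ 1 := by
  rw [← sq_le_one_iff_abs_le_one]; exact hβ

/-- growth of orbits -/
theorem orb_growth {γ β L W : ℝ} (hβ : β ^ 2 ≤ 1) (hL : 0 ≤ L) (hW : 3 + |γ| * L ≤ W)
    {G : E → E} (hG : ∀ x, ‖G x‖ ≤ L * ‖x‖) {x : ℕ → E} (hx : Orb γ β G x) (t : ℕ) :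
    ‖x t‖ ≤ W ^ t * (‖x 0‖ + ‖x 1‖) := by
  have hg := abs_nonneg γ
  have hW1 : 1 ≤ W := by nlinarith [mul_nonneg hg hL]
  set R := ‖x 0‖ + ‖x 1‖ with hR
  have hR0 : 0 ≤ R := by positivity
  have hb := abs_beta hβ
  induction t using Nat.twoStepInduction with
  | zero => simp [hR]
  | one =>
    rw [pow_one]
    have : ‖x 1‖ ≤ R := by rw [hR]; linarith [norm_nonneg (x 0)]
    nlinarith
  | more t ih1 ih2 =>
    rw [hx t]
    have n1 : ‖x (t + 1) - γ • G (x (t + 1)) + β • (x (t + 1) - x t)‖ ≤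
        ‖x (t + 1)‖ + |γ| * (L * ‖x (t + 1)‖) + (‖x (t + 1)‖ + ‖x t‖) := by
      refine (norm_add_le _ _).trans ?_
      refine add_le_add ((norm_sub_le _ _).trans ?_) ?_
      · rw [norm_smul, Real.norm_eq_abs]
        gcongr
        exact hG _
      · rw [norm_smul, Real.norm_eq_abs]
        calc |β| * ‖x (t + 1) - x t‖ ≤ 1 * (‖x (t + 1)‖ + ‖x t‖) := by
              gcongr; exact norm_sub_le _ _
          _ = _ := one_mul _
    refine n1.trans ?_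
    have hp : W ^ t ≤ W ^ (t + 1) := pow_le_pow_right₀ hW1 (by omega)
    have h2 : ‖x t‖ ≤ W ^ (t + 1) * R := ih1.trans (mul_le_mul_of_nonneg_right hp hR0)
    have h3 : W ^ (t + 2) * R = W * (W ^ (t + 1) * R) := by ring
    have h4 : 0 ≤ W ^ (t + 1) * R := by positivity
    have h5 : (3 + |γ| * L) * (W ^ (t + 1) * R) ≤ W * (W ^ (t + 1) * R) :=
      mul_le_mul_of_nonneg_right hW h4
    have h6 : |γ| * (L * ‖x (t + 1)‖) ≤ |γ| * (L * (W ^ (t + 1) * R)) := by gcongr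
    rw [h3]
    nlinarith

/-- two orbits with the same starting points -/
theorem orb_close {γ β L W δ : ℝ} (hβ : β ^ 2 ≤ 1) (hL : 0 ≤ L) (hδ : 0 ≤ δ) (hδ1 : δ ≤ 1)
    (hW : 3 + |γ| * (L + 1) ≤ W)
    {G G' : E → E} (hG0 : ∀ x, ‖G x‖ ≤ L * ‖x‖) (hG : ∀ x y, ‖G x - G y‖ ≤ L * ‖x - y‖)
    (hGG' : ∀ x, ‖G' x - G x‖ ≤ δ * ‖x‖)
    {x x' : ℕ → E} (hx : Orb γ β G x) (hx' : Orb γ β G' x') (h0 : x 0 = x' 0) (h1 : x 1 = x' 1)
    (t : ℕ) : ‖x' t - x t‖ ≤ δ * (W ^ t * (‖x' 0‖ + ‖x' 1‖)) := by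
  have hg := abs_nonneg γ
  have hW1 : 1 ≤ W := by nlinarith [mul_nonneg hg hL]
  have hb := abs_beta hβ
  have hG0' : ∀ x, ‖G' x‖ ≤ (L + 1) * ‖x‖ := by
    intro x
    calc ‖G' x‖ = ‖(G' x - G x) + G x‖ := by rw [sub_add_cancel]
      _ ≤ ‖G' x - G x‖ + ‖G x‖ := norm_add_le _ _
      _ ≤ δ * ‖x‖ + L * ‖x‖ := add_le_add (hGG' x) (hG0 x)
      _ ≤ 1 * ‖x‖ + L * ‖x‖ := by gcongr
      _ = _ := by ring
  have hgrow := orb_growth hβ (by linarith : 0 ≤ L + 1) hW hG0' hx'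
  set R := ‖x' 0‖ + ‖x' 1‖ with hR
  have hR0 : 0 ≤ R := by positivity
  induction t using Nat.twoStepInduction with
  | zero => rw [h0, sub_self, norm_zero]; positivity
  | one => rw [h1, sub_self, norm_zero]; positivity
  | more t ih1 ih2 =>
    have e : x' (t + 2) - x (t + 2) = (x' (t + 1) - x (t + 1)) -
        γ • ((G' (x' (t + 1)) - G (x' (t + 1))) + (G (x' (t + 1)) - G (x (t + 1)))) +
        β • ((x' (t + 1) - x (t + 1)) - (x' t - x t)) := by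
      rw [hx t, hx' t]; module
    set D := ‖x' (t + 1) - x (t + 1)‖ with hD
    have n1 : ‖x' (t + 2) - x (t + 2)‖ ≤ D + |γ| * (δ * ‖x' (t + 1)‖ + L * D) +
        (D + ‖x' t - x t‖) := by
      rw [e]
      refine (norm_add_le _ _).trans ?_
      refine add_le_add ((norm_sub_le _ _).trans ?_) ?_
      · rw [norm_smul, Real.norm_eq_abs]
        gcongr
        exact (norm_add_le _ _).trans (add_le_add (hGG' _) (hG _ _))
      · rw [norm_smul, Real.norm_eq_abs]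
        calc |β| * ‖(x' (t + 1) - x (t + 1)) - (x' t - x t)‖ ≤ 1 * (D + ‖x' t - x t‖) := by
              gcongr; exact norm_sub_le _ _
          _ = _ := one_mul _
    refine n1.trans ?_
    have hp : W ^ t ≤ W ^ (t + 1) := pow_le_pow_right₀ hW1 (by omega)
    set Z := W ^ (t + 1) * R with hZ
    have hZ0 : 0 ≤ Z := by positivity
    have h2 : ‖x' t - x t‖ ≤ δ * Z := by
      refine ih1.trans ?_
      rw [hZ]; gcongr
    have h3 : W ^ (t + 2) * R = W * Z := by rw [hZ]; ring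
    have h4 : ‖x' (t + 1)‖ ≤ Z := hgrow (t + 1)
    have h6 : |γ| * (δ * ‖x' (t + 1)‖ + L * D) ≤ |γ| * (δ * Z + L * (δ * Z)) := by gcongr
    have h7 : (3 + |γ| * (L + 1)) * (δ * Z) ≤ W * (δ * Z) :=
      mul_le_mul_of_nonneg_right hW (by positivity)
    rw [h3]
    nlinarith

theorem exists_orb (γ β : ℝ) (G : E → E) (a b : E) :
    ∃ x : ℕ → E, Orb γ β G x ∧ x 0 = a ∧ x 1 = b := by
  let step : E × E → E × E := fun p => (p.2, p.2 - γ • G p.2 + β • (p.2 - p.1))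
  let s : ℕ → E × E := fun t => step^[t] (a, b)
  have hs : ∀ t, s (t + 1) = step (s t) := fun t => Function.iterate_succ_apply' step t (a, b)
  refine ⟨fun t => (s t).1, ?_, rfl, rfl⟩
  intro t
  have e1 : (s (t + 1)).1 = (s t).2 := by rw [hs]
  have e2 : (s (t + 2)).1 = (s (t + 1)).2 := by rw [hs (t + 1)]
  simp only
  rw [e2, e1, hs t]

/-- stability is preserved by small perturbations -/
theorem stab_perturb {γ β L C : ℝ} (hβ : β ^ 2 ≤ 1) (hL : 0 ≤ L) (hC : 0 < C) :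
    ∃ δ C' : ℝ, 0 < δ ∧ 0 < C' ∧ ∀ (E : Type) [NormedAddCommGroup E] [InnerProductSpace ℝ E]
      (G G' : E → E), (∀ x, ‖G x‖ ≤ L * ‖x‖) → (∀ x y, ‖G x - G y‖ ≤ L * ‖x - y‖) →
      (∀ x, ‖G' x - G x‖ ≤ δ * ‖x‖) → Stab γ β C G → Stab γ β C' G' := by
  set W := 3 + |γ| * (L + 1) with hW
  have hg := abs_nonneg γ
  have hW1 : 1 ≤ W := by nlinarith [mul_nonneg hg hL]
  have hW0 : 0 < W := by linarith
  obtain ⟨n₀, hn₀⟩ := exists_nat_ge (64 * C + 1)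
  have hn1 : (1 : ℝ) ≤ n₀ := by linarith
  set C₆ : ℝ := 2 * (n₀ * W ^ (2 * n₀)) with hC₆
  have hC₆0 : 0 < C₆ := by positivity
  refine ⟨min 1 (1 / (8 * W ^ (n₀ + 1))), 2 * C₆, by positivity, by positivity, ?_⟩
  intro E _ _ G G' hG0 hG hGG' hst
  set δ := min 1 (1 / (8 * W ^ (n₀ + 1))) with hδ
  have hδ0 : 0 < δ := by positivity
  have hδ1 : δ ≤ 1 := min_le_left _ _
  have hδ2 : δ * W ^ (n₀ + 1) ≤ 1 / 8 := by
    have : δ ≤ 1 / (8 * W ^ (n₀ + 1)) := min_le_right _ _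
    calc δ * W ^ (n₀ + 1) ≤ 1 / (8 * W ^ (n₀ + 1)) * W ^ (n₀ + 1) := by gcongr
      _ = 1 / 8 := by field_simp
  -- contraction
  have hcontr : ∀ x' : ℕ → E, Orb γ β G' x' → ∃ t, 1 ≤ t ∧ t ≤ n₀ ∧
      ‖x' t‖ + ‖x' (t + 1)‖ ≤ (‖x' 0‖ + ‖x' 1‖) / 2 := by
    intro x' hx'
    obtain ⟨x, hx, h0, h1⟩ := exists_orb γ β G (x' 0) (x' 1)
    set R := ‖x' 0‖ + ‖x' 1‖ with hR
    have hR0 : 0 ≤ R := by positivity
    have hclose := orb_close hβ hL hδ0.le hδ1 le_rfl hG0 hG hGG' hx hx' h0 h1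
    have hex : ∃ t, 1 ≤ t ∧ t ≤ n₀ ∧ ‖x t‖ + ‖x (t + 1)‖ ≤ R / 4 := by
      by_contra hcon
      push Not at hcon
      have hRpos : 0 < R := by
        rcases hR0.lt_or_eq with h | h
        · exact h
        · exfalso
          have hz : ∀ t, ‖x t‖ ≤ 0 := by
            intro t
            have := orb_growth hβ hL (W := W) (by rw [hW]; nlinarith) hG0 hx t
            rw [h0, h1, ← hR, ← h, mul_zero] at this
            exact this
          have hn1' : 1 ≤ n₀ := by exact_mod_cast hn1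
          have a1 := hcon 1 le_rfl hn1'
          rw [← h, zero_div] at a1
          have a2 := hz 1
          have a3 := hz (1 + 1)
          linarith
      have hs1 := hst x hx (n₀ + 2)
      have hlow : ∀ t ∈ Finset.range n₀, R ^ 2 / 32 ≤ ‖x (t + 1)‖ ^ 2 + ‖x (t + 2)‖ ^ 2 := by
        intro t ht
        rw [Finset.mem_range] at ht
        have := hcon (t + 1) (by omega) (by omega)
        have h3 : (R / 4) ^ 2 ≤ (‖x (t + 1)‖ + ‖x (t + 1 + 1)‖) ^ 2 := by gcongr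
        have h4 : x (t + 1 + 1) = x (t + 2) := rfl
        rw [h4] at h3
        nlinarith [sq_nonneg (‖x (t + 1)‖ - ‖x (t + 2)‖)]
      have h5 := Finset.sum_le_sum hlow
      rw [Finset.sum_const, Finset.card_range, nsmul_eq_mul, Finset.sum_add_distrib] at h5
      have h6 : ∑ t ∈ Finset.range n₀, ‖x (t + 1)‖ ^ 2 ≤ ∑ t ∈ Finset.range (n₀ + 2), ‖x t‖ ^ 2 := by
        calc ∑ t ∈ Finset.range n₀, ‖x (t + 1)‖ ^ 2 ≤ ∑ t ∈ Finset.range (n₀ + 1), ‖x t‖ ^ 2 := by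
              rw [Finset.sum_range_succ' (fun t => ‖x t‖ ^ 2) n₀]
              have : 0 ≤ ‖x 0‖ ^ 2 := by positivity
              linarith
          _ ≤ _ := Finset.sum_le_sum_of_subset_of_nonneg (Finset.range_subset_range.2 (by omega))
              (fun _ _ _ => by positivity)
      have h7 : ∑ t ∈ Finset.range n₀, ‖x (t + 2)‖ ^ 2 ≤ ∑ t ∈ Finset.range (n₀ + 2), ‖x t‖ ^ 2 := by
        rw [Finset.sum_range_succ' (fun t => ‖x t‖ ^ 2) (n₀ + 1),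
          Finset.sum_range_succ' (fun t => ‖x (t + 1)‖ ^ 2) n₀]
        have : 0 ≤ ‖x 0‖ ^ 2 := by positivity
        have : 0 ≤ ‖x (0 + 1)‖ ^ 2 := by positivity
        linarith
      have h8 : ‖x 0‖ ^ 2 + ‖x 1‖ ^ 2 ≤ R ^ 2 := by
        rw [h0, h1, hR]
        nlinarith [mul_nonneg (norm_nonneg (x' 0)) (norm_nonneg (x' 1))]
      have h9 : n₀ * (R ^ 2 / 32) ≤ 2 * (C * R ^ 2) := by
        have := mul_le_mul_of_nonneg_left h8 hC.le
        linarith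
      have hR2 : 0 < R ^ 2 := by positivity
      nlinarith
    obtain ⟨t, ht1, ht2, ht3⟩ := hex
    refine ⟨t, ht1, ht2, ?_⟩
    have k1 := hclose t
    have k2 := hclose (t + 1)
    have p1 : W ^ t ≤ W ^ (n₀ + 1) := pow_le_pow_right₀ hW1 (by omega)
    have p2 : W ^ (t + 1) ≤ W ^ (n₀ + 1) := pow_le_pow_right₀ hW1 (by omega)
    have k3 : ‖x' t - x t‖ ≤ R / 8 := by
      calc _ ≤ δ * (W ^ t * R) := k1
        _ ≤ δ * (W ^ (n₀ + 1) * R) := by gcongr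
        _ = (δ * W ^ (n₀ + 1)) * R := by ring
        _ ≤ 1 / 8 * R := by gcongr
        _ = R / 8 := by ring
    have k4 : ‖x' (t + 1) - x (t + 1)‖ ≤ R / 8 := by
      calc _ ≤ δ * (W ^ (t + 1) * R) := k2
        _ ≤ δ * (W ^ (n₀ + 1) * R) := by gcongr
        _ = (δ * W ^ (n₀ + 1)) * R := by ring
        _ ≤ 1 / 8 * R := by gcongr
        _ = R / 8 := by ring
    have k5 : ‖x' t‖ ≤ ‖x t‖ + ‖x' t - x t‖ := by
      calc ‖x' t‖ = ‖x t + (x' t - x t)‖ := by rw [add_sub_cancel]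
        _ ≤ _ := norm_add_le _ _
    have k6 : ‖x' (t + 1)‖ ≤ ‖x (t + 1)‖ + ‖x' (t + 1) - x (t + 1)‖ := by
      calc ‖x' (t + 1)‖ = ‖x (t + 1) + (x' (t + 1) - x (t + 1))‖ := by rw [add_sub_cancel]
        _ ≤ _ := norm_add_le _ _
    linarith
  -- growth for G'
  have hG0' : ∀ x, ‖G' x‖ ≤ (L + 1) * ‖x‖ := by
    intro x
    calc ‖G' x‖ = ‖(G' x - G x) + G x‖ := by rw [sub_add_cancel]
      _ ≤ ‖G' x - G x‖ + ‖G x‖ := norm_add_le _ _
      _ ≤ δ * ‖x‖ + L * ‖x‖ := add_le_add (hGG' x) (hG0 x)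
      _ ≤ 1 * ‖x‖ + L * ‖x‖ := by gcongr
      _ = _ := by ring
  have hhead : ∀ x' : ℕ → E, Orb γ β G' x' → ∀ m, m ≤ n₀ →
      ∑ t ∈ Finset.range m, ‖x' t‖ ^ 2 ≤ n₀ * W ^ (2 * n₀) * (‖x' 0‖ + ‖x' 1‖) ^ 2 := by
    intro x' hx' m hm
    have hgrow := orb_growth hβ (by linarith : 0 ≤ L + 1) (le_refl W) hG0' hx'
    calc ∑ t ∈ Finset.range m, ‖x' t‖ ^ 2 ≤
          ∑ t ∈ Finset.range m, W ^ (2 * n₀) * (‖x' 0‖ + ‖x' 1‖) ^ 2 := by
          refine Finset.sum_le_sum fun t ht => ?_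
          rw [Finset.mem_range] at ht
          have h1 := hgrow t
          calc ‖x' t‖ ^ 2 ≤ (W ^ t * (‖x' 0‖ + ‖x' 1‖)) ^ 2 := by gcongr
            _ = W ^ (2 * t) * (‖x' 0‖ + ‖x' 1‖) ^ 2 := by rw [mul_pow, ← pow_mul, mul_comm t 2]
            _ ≤ W ^ (2 * n₀) * (‖x' 0‖ + ‖x' 1‖) ^ 2 := by
                gcongr
                omega
      _ = m * (W ^ (2 * n₀) * (‖x' 0‖ + ‖x' 1‖) ^ 2) := by
          rw [Finset.sum_const, Finset.card_range, nsmul_eq_mul]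
      _ ≤ n₀ * (W ^ (2 * n₀) * (‖x' 0‖ + ‖x' 1‖) ^ 2) := by
          gcongr
      _ = _ := by ring
  have hmain : ∀ N, ∀ x' : ℕ → E, Orb γ β G' x' →
      ∑ t ∈ Finset.range N, ‖x' t‖ ^ 2 ≤ C₆ * (‖x' 0‖ + ‖x' 1‖) ^ 2 := by
    intro N
    induction N using Nat.strong_induction_on with
    | _ N ih =>
      intro x' hx'
      obtain ⟨t₀, ht1, ht2, ht3⟩ := hcontr x' hx'
      have hhd := hhead x' hx'
      have hRsq : 0 ≤ (‖x' 0‖ + ‖x' 1‖) ^ 2 := by positivity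
      by_cases hN : N ≤ t₀
      · refine (hhd N (by omega)).trans ?_
        rw [hC₆]
        have : 0 ≤ (n₀ : ℝ) * W ^ (2 * n₀) := by positivity
        nlinarith
      · have h1 := ih (N - t₀) (by omega) (fun t => x' (t₀ + t)) (hx'.shift t₀)
        have h2 := hhd t₀ ht2
        have h3 : ∑ t ∈ Finset.range N, ‖x' t‖ ^ 2 = ∑ t ∈ Finset.range t₀, ‖x' t‖ ^ 2 +
            ∑ t ∈ Finset.range (N - t₀), ‖x' (t₀ + t)‖ ^ 2 := by
          have : N = t₀ + (N - t₀) := by omega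
          conv_lhs => rw [this]
          exact Finset.sum_range_add _ _ _
        rw [h3]
        simp only [add_zero] at h1
        have h4 : (‖x' t₀‖ + ‖x' (t₀ + 1)‖) ^ 2 ≤ ((‖x' 0‖ + ‖x' 1‖) / 2) ^ 2 := by gcongr
        have h5 : C₆ * (‖x' t₀‖ + ‖x' (t₀ + 1)‖) ^ 2 ≤ C₆ * ((‖x' 0‖ + ‖x' 1‖) / 2) ^ 2 := by
          gcongr
        have h6 : (n₀ : ℝ) * W ^ (2 * n₀) * (‖x' 0‖ + ‖x' 1‖) ^ 2 =
            C₆ / 2 * (‖x' 0‖ + ‖x' 1‖) ^ 2 := by rw [hC₆]; ring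
        rw [h6] at h2
        nlinarith [mul_nonneg hC₆0.le hRsq]
  intro x' hx' N
  refine (hmain N x' hx').trans ?_
  have : (‖x' 0‖ + ‖x' 1‖) ^ 2 ≤ 2 * (‖x' 0‖ ^ 2 + ‖x' 1‖ ^ 2) := by
    nlinarith [sq_nonneg (‖x' 0‖ - ‖x' 1‖)]
  calc C₆ * (‖x' 0‖ + ‖x' 1‖) ^ 2 ≤ C₆ * (2 * (‖x' 0‖ ^ 2 + ‖x' 1‖ ^ 2)) := by gcongr
    _ = _ := by ring

end

end Pool.Agent.Helper66.HB
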