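import Pool.Agent.Helper66.HB.Smooth

namespace Pool.Agent.Helper66.HB

open scoped RealInnerProductSpace
open Filter Topology

variable {H : Type*} [NormedAddCommGroup H] [InnerProductSpace ℝ H]
variable {ι : Type*} [Fintype ι]

/-- interpolation by a convex `ℓ`-smooth function -/
theorem interp_convex [Nonempty ι] {ℓ : ℝ} (hℓ : 0 < ℓ) (x g : ι → H) (φ : ι → ℝ)
    (hyp : ∀ i j, φ j + ⟪g j, x i - x j⟫ + ‖g i - g j‖ ^ 2 / (2 * ℓ) ≤ φ i) :
    ∃ (h : H → ℝ) (G : H → H), Cls 0 ℓ h G ∧ ∀ i, G (x i) = g i := by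
  classical
  set c : ι → ℝ := fun j => φ j - ⟪g j, x j⟫ + ‖g j‖ ^ 2 / (2 * ℓ) with hc
  set Φ : (ι → ℝ) → H → ℝ := fun lam z =>
    ∑ i, lam i * (c i + ⟪g i, z⟫) - ‖∑ i, lam i • g i‖ ^ 2 / (2 * ℓ) with hΦ
  have hmax : ∀ z : H, ∃ lam ∈ stdSimplex ℝ ι, ∀ lam' ∈ stdSimplex ℝ ι, Φ lam' z ≤ Φ lam z := by
    intro z
    have hcont : Continuous fun lam : ι → ℝ => Φ lam z := by
      simp only [hΦ]; fun_prop
    obtain ⟨i0⟩ := ‹Nonempty ι›
    obtain ⟨lam, h1, h2⟩ := (isCompact_stdSimplex ℝ ι).exists_isMaxOn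
      ⟨Pi.single i0 1, single_mem_stdSimplex ℝ i0⟩ hcont.continuousOn
    exact ⟨lam, h1, fun lam' h => h2 h⟩
  choose lam hlam hopt using hmax
  set G : H → H := fun z => ∑ i, lam z i • g i with hG
  -- first order optimality
  have hfo : ∀ z : H, ∀ m ∈ stdSimplex ℝ ι,
      ∑ i, (m i - lam z i) * (c i + ⟪g i, z⟫) ≤ ⟪G z, (∑ i, m i • g i) - G z⟫ / ℓ := by
    intro z m hm
    set W := (∑ i, m i • g i) - G z with hW
    set A := ∑ i, (m i - lam z i) * (c i + ⟪g i, z⟫) with hA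
    have hall : ∀ t : ℝ, 0 < t → t ≤ 1 → A ≤ ⟪G z, W⟫ / ℓ + t * (‖W‖ ^ 2 / (2 * ℓ)) := by
      intro t ht ht1
      have hmem : (fun i => lam z i + t * (m i - lam z i)) ∈ stdSimplex ℝ ι := by
        have := (convex_stdSimplex ℝ ι) (hlam z) hm (by linarith : (0:ℝ) ≤ 1 - t) ht.le
          (by ring : (1 - t) + t = 1)
        convert this using 1
        ext i
        simp only [Pi.add_apply, Pi.smul_apply, smul_eq_mul]
        ring
      have h1 := hopt z _ hmem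
      simp only [hΦ] at h1
      have e1 : ∑ i, (lam z i + t * (m i - lam z i)) * (c i + ⟪g i, z⟫) =
          ∑ i, lam z i * (c i + ⟪g i, z⟫) + t * A := by
        rw [hA, Finset.mul_sum, ← Finset.sum_add_distrib]
        exact Finset.sum_congr rfl fun i _ => by ring
      have e2 : ∑ i, (lam z i + t * (m i - lam z i)) • g i = G z + t • W := by
        rw [hW, hG]
        simp only
        rw [smul_sub, Finset.smul_sum, Finset.smul_sum, ← Finset.sum_sub_distrib,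
          ← Finset.sum_add_distrib]
        exact Finset.sum_congr rfl fun i _ => by module
      rw [e1, e2] at h1
      have e3 : ‖G z + t • W‖ ^ 2 = ‖G z‖ ^ 2 + 2 * t * ⟪G z, W⟫ + t ^ 2 * ‖W‖ ^ 2 := by
        rw [@norm_add_sq_real, inner_smul_right, norm_smul, mul_pow, Real.norm_eq_abs, sq_abs]
        ring
      rw [e3] at h1
      have h2 : t * A ≤ (2 * t * ⟪G z, W⟫ + t ^ 2 * ‖W‖ ^ 2) / (2 * ℓ) := by
        have : (‖G z‖ ^ 2 + 2 * t * ⟪G z, W⟫ + t ^ 2 * ‖W‖ ^ 2) / (2 * ℓ) =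
          ‖G z‖ ^ 2 / (2 * ℓ) + (2 * t * ⟪G z, W⟫ + t ^ 2 * ‖W‖ ^ 2) / (2 * ℓ) := by
          rw [← add_div]; ring
        rw [this] at h1
        have e4 : ‖∑ i, lam z i • g i‖ ^ 2 / (2 * ℓ) = ‖G z‖ ^ 2 / (2 * ℓ) := rfl
        rw [e4] at h1
        linarith
      have h3 : (2 * t * ⟪G z, W⟫ + t ^ 2 * ‖W‖ ^ 2) / (2 * ℓ) =
          t * (⟪G z, W⟫ / ℓ + t * (‖W‖ ^ 2 / (2 * ℓ))) := by
        field_simp
      rw [h3] at h2
      exact le_of_mul_le_mul_left h2 ht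
    by_contra hcon
    push Not at hcon
    set δ := A - ⟪G z, W⟫ / ℓ with hδ
    have hδ0 : 0 < δ := by rw [hδ]; linarith
    set B := ‖W‖ ^ 2 / (2 * ℓ) with hB
    have hB0 : 0 ≤ B := by rw [hB]; positivity
    have h1 := hall (min 1 (δ / (2 * (B + 1)))) (by positivity) (min_le_left _ _)
    have h2 : min 1 (δ / (2 * (B + 1))) * B ≤ δ / 2 := by
      calc min 1 (δ / (2 * (B + 1))) * B ≤ (δ / (2 * (B + 1))) * (B + 1) := by
            gcongr
            · exact min_le_right _ _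
            · linarith
        _ = δ / 2 := by field_simp
    linarith
  refine ⟨fun z => Φ (lam z) z, G, ?_, ?_⟩
  · intro x₀ y
    constructor
    · have h1 := hopt y (lam x₀) (hlam x₀)
      have e : Φ (lam x₀) y = Φ (lam x₀) x₀ + ⟪G x₀, y - x₀⟫ := by
        simp only [hΦ, hG]
        rw [sum_inner]
        have : ∑ i, lam x₀ i * (c i + ⟪g i, y⟫) = ∑ i, lam x₀ i * (c i + ⟪g i, x₀⟫) +
            ∑ i, ⟪lam x₀ i • g i, y - x₀⟫ := by
          rw [← Finset.sum_add_distrib]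
          refine Finset.sum_congr rfl fun i _ => ?_
          rw [inner_smul_left, inner_sub_right]
          simp; ring
        rw [this]; ring
      simp only
      nlinarith [h1, e]
    · simp only
      have h1 := hfo x₀ (lam y) (hlam y)
      set Gy := G y with hGy
      have hGy' : (∑ i, lam y i • g i) = Gy := rfl
      rw [hGy'] at h1
      set W := Gy - G x₀ with hW
      have e1 : Φ (lam y) y = ∑ i, lam y i * (c i + ⟪g i, x₀⟫) + ⟪Gy, y - x₀⟫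
          - ‖Gy‖ ^ 2 / (2 * ℓ) := by
        have : ∑ i, lam y i * (c i + ⟪g i, y⟫) = ∑ i, lam y i * (c i + ⟪g i, x₀⟫) +
            ⟪Gy, y - x₀⟫ := by
          rw [hGy, hG]
          simp only
          rw [sum_inner, ← Finset.sum_add_distrib]
          refine Finset.sum_congr rfl fun i _ => ?_
          rw [inner_smul_left, inner_sub_right]
          simp; ring
        simp only [hΦ]
        rw [this, hGy']
      have e2 : Φ (lam x₀) x₀ = ∑ i, lam x₀ i * (c i + ⟪g i, x₀⟫) - ‖G x₀‖ ^ 2 / (2 * ℓ) := rfl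
      have e3 : ∑ i, (lam y i - lam x₀ i) * (c i + ⟪g i, x₀⟫) =
          ∑ i, lam y i * (c i + ⟪g i, x₀⟫) - ∑ i, lam x₀ i * (c i + ⟪g i, x₀⟫) := by
        rw [← Finset.sum_sub_distrib]
        exact Finset.sum_congr rfl fun i _ => by ring
      have e4 : Gy = G x₀ + W := by rw [hW]; abel
      have e5 : ‖Gy‖ ^ 2 = ‖G x₀‖ ^ 2 + 2 * ⟪G x₀, W⟫ + ‖W‖ ^ 2 := by
        rw [e4, @norm_add_sq_real]
      have e6 : ⟪Gy, y - x₀⟫ = ⟪G x₀, y - x₀⟫ + ⟪W, y - x₀⟫ := by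
        rw [e4, inner_add_left]
      rw [e3] at h1
      rw [e1, e2, e5, e6]
      have h2 : ⟪W, y - x₀⟫ ≤ ‖W‖ * ‖y - x₀‖ := real_inner_le_norm _ _
      have h3 : ‖W‖ * ‖y - x₀‖ ≤ ‖W‖ ^ 2 / (2 * ℓ) + ℓ / 2 * ‖y - x₀‖ ^ 2 := by
        have : 0 ≤ (‖W‖ - ℓ * ‖y - x₀‖) ^ 2 / (2 * ℓ) := by positivity
        have e7 : (‖W‖ - ℓ * ‖y - x₀‖) ^ 2 / (2 * ℓ) =
            ‖W‖ ^ 2 / (2 * ℓ) + ℓ / 2 * ‖y - x₀‖ ^ 2 - ‖W‖ * ‖y - x₀‖ := by
          field_simp; ring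
        linarith
      have e8 : (‖G x₀‖ ^ 2 + 2 * ⟪G x₀, W⟫ + ‖W‖ ^ 2) / (2 * ℓ) =
          ‖G x₀‖ ^ 2 / (2 * ℓ) + ⟪G x₀, W⟫ / ℓ + ‖W‖ ^ 2 / (2 * ℓ) := by
        field_simp
      rw [e8]
      linarith
  · intro i
    -- value at e_i
    have h1 := hopt (x i) (Pi.single i 1) (single_mem_stdSimplex ℝ i)
    have e1 : Φ (Pi.single i 1) (x i) = φ i := by
      simp only [hΦ]
      rw [Finset.sum_eq_single i, Finset.sum_eq_single i]
      · simp [hc]; ring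
      · intro j _ hj; simp [Pi.single_eq_of_ne hj]
      · intro h; exact absurd (Finset.mem_univ i) h
      · intro j _ hj; simp [Pi.single_eq_of_ne hj]
      · intro h; exact absurd (Finset.mem_univ i) h
    rw [e1] at h1
    -- upper bound
    have h2 : Φ (lam (x i)) (x i) ≤ φ i - ‖g i - G (x i)‖ ^ 2 / (2 * ℓ) := by
      have hb : ∀ j, c j + ⟪g j, x i⟫ ≤ φ i - ‖g i‖ ^ 2 / (2 * ℓ) + ⟪g i, g j⟫ / ℓ := by
        intro j
        have := hyp i j
        rw [@norm_sub_sq_real, inner_sub_right] at this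
        simp only [hc]
        have e : (‖g i‖ ^ 2 - 2 * ⟪g i, g j⟫ + ‖g j‖ ^ 2) / (2 * ℓ) =
          ‖g i‖ ^ 2 / (2 * ℓ) - ⟪g i, g j⟫ / ℓ + ‖g j‖ ^ 2 / (2 * ℓ) := by
          field_simp
        rw [e] at this
        linarith
      have hnn := (hlam (x i)).1
      have hsum := (hlam (x i)).2
      have h3 : ∑ j, lam (x i) j * (c j + ⟪g j, x i⟫) ≤
          ∑ j, lam (x i) j * (φ i - ‖g i‖ ^ 2 / (2 * ℓ) + ⟪g i, g j⟫ / ℓ) :=
        Finset.sum_le_sum fun j _ => mul_le_mul_of_nonneg_left (hb j) (hnn j)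
      have e2 : ∑ j, lam (x i) j * (φ i - ‖g i‖ ^ 2 / (2 * ℓ) + ⟪g i, g j⟫ / ℓ) =
          φ i - ‖g i‖ ^ 2 / (2 * ℓ) + ⟪g i, G (x i)⟫ / ℓ := by
        have e3 : ⟪g i, G (x i)⟫ = ∑ j, lam (x i) j * ⟪g i, g j⟫ := by
          simp only [hG]
          rw [inner_sum]
          exact Finset.sum_congr rfl fun j _ => by rw [inner_smul_right]
        rw [e3]
        simp only [mul_add]
        rw [Finset.sum_add_distrib, ← Finset.sum_mul, hsum, one_mul, Finset.sum_div]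
        congr 1
        exact Finset.sum_congr rfl fun j _ => by ring
      have e4 : Φ (lam (x i)) (x i) = ∑ j, lam (x i) j * (c j + ⟪g j, x i⟫)
          - ‖G (x i)‖ ^ 2 / (2 * ℓ) := rfl
      rw [e4, @norm_sub_sq_real]
      have e5 : (‖g i‖ ^ 2 - 2 * ⟪g i, G (x i)⟫ + ‖G (x i)‖ ^ 2) / (2 * ℓ) =
        ‖g i‖ ^ 2 / (2 * ℓ) - ⟪g i, G (x i)⟫ / ℓ + ‖G (x i)‖ ^ 2 / (2 * ℓ) := by
        field_simp
      rw [e5]
      linarith
    have h3 : ‖g i - G (x i)‖ ^ 2 / (2 * ℓ) ≤ 0 := by linarith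
    have h4 : ‖g i - G (x i)‖ ^ 2 ≤ 0 := by
      by_contra hcon
      push Not at hcon
      have : 0 < ‖g i - G (x i)‖ ^ 2 / (2 * ℓ) := by positivity
      linarith
    have h5 : ‖g i - G (x i)‖ = 0 := by
      have := sq_nonneg ‖g i - G (x i)‖
      exact pow_eq_zero_iff (two_ne_zero) |>.1 (le_antisymm h4 this)
    rw [norm_eq_zero, sub_eq_zero] at h5
    exact h5.symm

/-- interpolation by a `μ`-strongly convex `L`-smooth function -/
theorem interp_strong [Nonempty ι] {μ L : ℝ} (hL : μ < L) (x g : ι → H) (φ : ι → ℝ)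
    (hyp : ∀ i j, μ / 2 * ‖x i - x j‖ ^ 2 +
      ‖(g i - g j) - μ • (x i - x j)‖ ^ 2 / (2 * (L - μ)) ≤ φ i - φ j - ⟪g j, x i - x j⟫) :
    ∃ (f : H → ℝ) (G : H → H), Cls μ L f G ∧ ∀ i, G (x i) = g i := by
  obtain ⟨h, G, h1, h2⟩ := interp_convex (sub_pos.2 hL) x (fun i => g i - μ • x i)
    (fun i => φ i - μ / 2 * ‖x i‖ ^ 2) (by
      intro i j
      have := hyp i j
      have e1 : (g i - μ • x i) - (g j - μ • x j) = (g i - g j) - μ • (x i - x j) := by module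
      rw [e1, inner_sub_left, inner_smul_left]
      have e2 : ‖x i - x j‖ ^ 2 = ‖x i‖ ^ 2 - 2 * ⟪x i, x j⟫ + ‖x j‖ ^ 2 := @norm_sub_sq_real _ _ _ _ _
      have e3 : ⟪x j, x i - x j⟫ = ⟪x i, x j⟫ - ‖x j‖ ^ 2 := by
        rw [inner_sub_right, real_inner_self_eq_norm_sq, real_inner_comm]
      rw [e3]
      rw [e2] at this
      simp only [conj_trivial]
      nlinarith)
  refine ⟨fun z => h z + μ / 2 * ‖z‖ ^ 2, fun z => G z + μ • z, ?_, ?_⟩
  · intro a b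
    obtain ⟨p, q⟩ := h1 a b
    have e1 : ‖b - a‖ ^ 2 = ‖b‖ ^ 2 - 2 * ⟪b, a⟫ + ‖a‖ ^ 2 := @norm_sub_sq_real _ _ _ _ _
    have e3 : ⟪G a + μ • a, b - a⟫ = ⟪G a, b - a⟫ + μ * (⟪b, a⟫ - ‖a‖ ^ 2) := by
      rw [inner_add_left, inner_smul_left, inner_sub_right a b a, real_inner_self_eq_norm_sq,
        real_inner_comm b a]
      simp
    simp only
    rw [e3]
    rw [e1] at p q ⊢
    constructor <;> nlinarith
  · intro i
    simp only
    rw [h2 i]; abel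

end Pool.Agent.Helper66.HB
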