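import Pool.Agent.Helper66.HB.Cases

namespace Pool.Agent.Helper66.HB

open scoped RealInnerProductSpace
open Filter Topology

theorem Cls.norm_ge {μ L : ℝ} {E : Type*} [NormedAddCommGroup E] [InnerProductSpace ℝ E]
    {f : E → ℝ} {G : E → E} (h : Cls μ L f G) (hG0 : G 0 = 0) (x : E) : μ * ‖x‖ ≤ ‖G x‖ := by
  have h1 := (h x 0).1
  have h2 := (h 0 x).1
  rw [hG0, inner_zero_left] at h2
  simp only [zero_sub, norm_neg, inner_neg_right, sub_zero] at h1 h2
  have h3 : μ * ‖x‖ ^ 2 ≤ ⟪G x, x⟫ := by linarith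
  have h4 : ⟪G x, x⟫ ≤ ‖G x‖ * ‖x‖ := real_inner_le_norm _ _
  by_cases hx : ‖x‖ = 0
  · rw [hx, mul_zero]; exact norm_nonneg _
  · have hx' : 0 < ‖x‖ := lt_of_le_of_ne (norm_nonneg _) (Ne.symm hx)
    have : (μ * ‖x‖) * ‖x‖ ≤ ‖G x‖ * ‖x‖ := by nlinarith
    exact le_of_mul_le_mul_right this hx'

theorem del_one_ge {μ L γ β : ℝ} (hμ : 0 < μ) (hγ : γ ≠ 0) (hβ : β ^ 2 ≤ 1)
    {E : Type} [NormedAddCommGroup E] [InnerProductSpace ℝ E]
    {f : E → ℝ} {G : E → E} (h : Cls μ L f G) (hG0 : G 0 = 0) {n : ℕ} [NeZero n]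
    (X : ZMod n → E) (hε : 6 * ∑ u, ‖resid γ β G X u‖ ^ 2 ≤ μ ^ 2 * nrm X) :
    γ ^ 2 * μ ^ 2 / 12 * nrm X ≤ del X 1 := by
  have hpt : ∀ u, μ ^ 2 * ‖X u‖ ^ 2 ≤ 3 * (γ⁻¹ ^ 2 * ‖X (u + 1) - X u‖ ^ 2 +
      γ⁻¹ ^ 2 * ‖X (u + -1 + 1) - X (u + -1)‖ ^ 2 + ‖resid γ β G X u‖ ^ 2) := by
    intro u
    have h1 := h.norm_ge hG0 (X u)
    have h2 : μ ^ 2 * ‖X u‖ ^ 2 ≤ ‖G (X u)‖ ^ 2 := by
      rw [← mul_pow]; gcongr
    have e : G (X u) = (-γ⁻¹) • (X (u + 1) - X u) + (β * γ⁻¹) • (X (u + -1 + 1) - X (u + -1)) +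
        -resid γ β G X u := by
      have e0 : u + -1 = u - 1 := by ring
      rw [resid, e0, sub_add_cancel]; module
    have h3 := norm_sq_three ((-γ⁻¹) • (X (u + 1) - X u))
      ((β * γ⁻¹) • (X (u + -1 + 1) - X (u + -1))) (-resid γ β G X u)
    rw [← e, norm_smul, norm_smul, norm_neg (resid γ β G X u), mul_pow, mul_pow,
      Real.norm_eq_abs, Real.norm_eq_abs, sq_abs, sq_abs] at h3
    have h4 : (β * γ⁻¹) ^ 2 * ‖X (u + -1 + 1) - X (u + -1)‖ ^ 2 ≤
        γ⁻¹ ^ 2 * ‖X (u + -1 + 1) - X (u + -1)‖ ^ 2 := by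
      have : (β * γ⁻¹) ^ 2 ≤ γ⁻¹ ^ 2 := by
        rw [mul_pow]; nlinarith [sq_nonneg γ⁻¹]
      exact mul_le_mul_of_nonneg_right this (by positivity)
    have h5 : (-γ⁻¹) ^ 2 = γ⁻¹ ^ 2 := by ring
    rw [h5] at h3
    linarith
  have hsum := Finset.sum_le_sum fun u (_ : u ∈ Finset.univ) => hpt u
  have e1 : ∑ u, ‖X (u + -1 + 1) - X (u + -1)‖ ^ 2 = del X 1 := by
    rw [sum_shift (fun u => ‖X (u + 1) - X u‖ ^ 2) (-1), del]
    simp
  have e2 : ∑ u, ‖X (u + 1) - X u‖ ^ 2 = del X 1 := by rw [del]; simp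
  rw [← Finset.mul_sum, ← Finset.mul_sum, Finset.sum_add_distrib, Finset.sum_add_distrib,
    ← Finset.mul_sum, ← Finset.mul_sum, e1, e2, ← nrm] at hsum
  have hγ2 : 0 < γ ^ 2 := by positivity
  have h6 : μ ^ 2 / 2 * nrm X ≤ 6 * γ⁻¹ ^ 2 * del X 1 := by linarith
  have h7 : γ ^ 2 * (μ ^ 2 / 2 * nrm X) ≤ γ ^ 2 * (6 * γ⁻¹ ^ 2 * del X 1) :=
    mul_le_mul_of_nonneg_left h6 hγ2.le
  have h8 : γ ^ 2 * (6 * γ⁻¹ ^ 2 * del X 1) = 6 * del X 1 := by
    field_simp
  rw [h8] at h7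
  linarith

theorem coercive {μ L μ' L' γ β : ℝ} (hμ' : 0 < μ') (h1 : μ' < μ) (h2 : μ < L)
    (h3 : L < L') (hγ : γ ≠ 0) (hβ : β ^ 2 ≤ 1) (hno : ¬ HasCycle μ' L' γ β) :
    ∃ Γ : ℝ, 0 < Γ ∧ ∀ (E : Type) [NormedAddCommGroup E] [InnerProductSpace ℝ E]
      [FiniteDimensional ℝ E] (f : E → ℝ) (G : E → E), Cls μ L f G → G 0 = 0 →
      ∀ (n : ℕ) [NeZero n] (X : ZMod n → E), nrm X ≤ Γ * ∑ u, ‖resid γ β G X u‖ ^ 2 := by
  obtain ⟨B, hB1, hB⟩ := cycle_of_family (β := β) hμ' h1 h2 h3 hγ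
  have hμ : 0 < μ := by linarith
  have hγi : 0 < γ⁻¹ ^ 2 := by positivity
  set P : ℝ := 12 * γ⁻¹ ^ 2 with hP
  have hP0 : 0 < P := by positivity
  have hB0 : 0 < B := by linarith
  set q : ℝ := 1 / (2 * B * (P + 1)) with hq
  have hq0 : 0 < q := by positivity
  have hq1 : q ≤ 1 := by
    rw [hq, div_le_one (by positivity)]
    nlinarith
  have hBPq : B * P * q ≤ 1 / 2 := by
    rw [hq, mul_one_div, div_le_iff₀ (by positivity)]
    nlinarith
  set c₁ : ℝ := γ ^ 2 * μ ^ 2 / 12 with hc₁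
  have hc0 : 0 < c₁ := by positivity
  set θ : ℕ → ℝ := fun k => c₁ * q ^ k with hθ
  have hθ0 : ∀ k, 0 < θ k := fun k => by simp only [hθ]; positivity
  have hθanti : ∀ j k, j ≤ k → θ k ≤ θ j := by
    intro j k hjk
    simp only [hθ]
    exact mul_le_mul_of_nonneg_left (pow_le_pow_of_le_one hq0.le hq1 hjk) hc0.le
  obtain ⟨τ₀, hτ₀⟩ := exists_nat_ge (2 * B * P + 1)
  obtain ⟨M, hM⟩ := exists_nat_ge (4 * B * P / θ τ₀ + 2 * τ₀ + 1)
  have hτ₀1 : (1 : ℝ) ≤ τ₀ := by nlinarith [mul_pos hB0 hP0]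
  have hM1 : (1 : ℝ) ≤ M := by
    have : 0 < 4 * B * P / θ τ₀ := by have := hθ0 τ₀; positivity
    linarith
  have hM2 : 2 * (τ₀ : ℝ) ≤ M := by
    have : 0 < 4 * B * P / θ τ₀ := by have := hθ0 τ₀; positivity
    linarith
  have hM3 : 4 * B * P ≤ M * θ τ₀ := by
    have h4 : 4 * B * P / θ τ₀ ≤ M := by linarith
    rwa [div_le_iff₀ (hθ0 τ₀)] at h4
  have hM1' : 1 ≤ M := by exact_mod_cast hM1
  have hM2' : 2 * τ₀ ≤ M := by exact_mod_cast hM2
  set Γ : ℝ := 6 * M / P + 6 * B * τ₀ / θ τ₀ + 6 / μ ^ 2 + 1 with hΓ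
  have t1 : 0 ≤ 6 * M / P := by positivity
  have t2 : 0 ≤ 6 * B * τ₀ / θ τ₀ := by have := hθ0 τ₀; positivity
  have t3 : 0 ≤ 6 / μ ^ 2 := by positivity
  refine ⟨Γ, by linarith, ?_⟩
  intro E _ _ _ f G hf hG0 n _ X
  by_contra hcon
  push Not at hcon
  apply hno
  set ε2 := ∑ u, ‖resid γ β G X u‖ ^ 2 with hε2
  have hε0 : 0 ≤ ε2 := by rw [hε2]; positivity
  set S := nrm X with hS
  have hS0 : 0 < S := lt_of_le_of_lt (by positivity) hcon
  have f1 : 6 * M * ε2 ≤ P * S := by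
    have h4 : 6 * M / P * ε2 ≤ S := by
      have : 6 * M / P * ε2 ≤ Γ * ε2 := mul_le_mul_of_nonneg_right (by linarith) hε0
      linarith
    have h5 : P * (6 * M / P * ε2) ≤ P * S := mul_le_mul_of_nonneg_left h4 hP0.le
    have h6 : P * (6 * M / P * ε2) = 6 * M * ε2 := by field_simp
    linarith
  have f2 : 6 * B * τ₀ * ε2 ≤ θ τ₀ * S := by
    have h4 : 6 * B * τ₀ / θ τ₀ * ε2 ≤ S := by
      have : 6 * B * τ₀ / θ τ₀ * ε2 ≤ Γ * ε2 := mul_le_mul_of_nonneg_right (by linarith) hε0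
      linarith
    have h5 := mul_le_mul_of_nonneg_left h4 (hθ0 τ₀).le
    have h6 : θ τ₀ * (6 * B * τ₀ / θ τ₀ * ε2) = 6 * B * τ₀ * ε2 := by
      have := (hθ0 τ₀).ne'
      field_simp
    linarith
  have f3 : 6 * ε2 ≤ μ ^ 2 * S := by
    have h4 : 6 / μ ^ 2 * ε2 ≤ S := by
      have : 6 / μ ^ 2 * ε2 ≤ Γ * ε2 := mul_le_mul_of_nonneg_right (by linarith) hε0
      linarith
    have h5 := mul_le_mul_of_nonneg_left h4 (by positivity : 0 ≤ μ ^ 2)
    have h6 : μ ^ 2 * (6 / μ ^ 2 * ε2) = 6 * ε2 := by field_simp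
    linarith
  have hdel1 : c₁ * S ≤ del X 1 := del_one_ge hμ hγ hβ hf hG0 X f3
  have hdelnn : ∀ k, 0 ≤ del X k := fun k => by rw [del]; positivity
  by_cases hex : ∃ τ, (1 ≤ τ ∧ τ < τ₀) ∧ del X τ < θ τ * S
  · classical
    set τ := Nat.find hex with hτ
    obtain ⟨⟨ha, hb⟩, hc⟩ := Nat.find_spec hex
    rw [← hτ] at ha hb hc
    have hmin : ∀ ρ, 1 ≤ ρ → ρ < τ → θ ρ * S ≤ del X ρ := by
      intro ρ hρ1 hρ2
      have := Nat.find_min hex hρ2
      push Not at this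
      exact this ⟨hρ1, by omega⟩
    have hτ2 : 2 ≤ τ := by
      by_contra hlt
      have : τ = 1 := by omega
      rw [this] at hc
      have h4 : θ 1 ≤ c₁ := by
        simp only [hθ, pow_one]
        nlinarith
      nlinarith
    haveI : NeZero τ := ⟨by omega⟩
    refine hB E f G hf τ (ZMod n) (fam X (fun _ : ZMod τ => 1)) ?_ ?_
    · intro r hr
      refine le_trans ?_ (distI X τ r)
      have hrv : 1 ≤ r.val := by
        have : r.val ≠ 0 := fun h => hr ((ZMod.val_eq_zero r).1 h)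
        omega
      have hrlt := ZMod.val_lt r
      have hT := caseI (γ := γ) hβ hG0 X τ
      have h4 := hmin r.val hrv hrlt
      have h5 : θ (τ - 1) ≤ θ r.val := hθanti _ _ (by omega)
      have h6 : θ τ = q * θ (τ - 1) := by
        simp only [hθ]
        have : τ = (τ - 1) + 1 := by omega
        conv_lhs => rw [this]
        rw [pow_succ]; ring
      have h7 : B * P * del X τ ≤ 1 / 2 * (θ (τ - 1) * S) := by
        calc B * P * del X τ ≤ B * P * (θ τ * S) := by gcongr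
          _ = (B * P * q) * (θ (τ - 1) * S) := by rw [h6]; ring
          _ ≤ 1 / 2 * (θ (τ - 1) * S) := by
              have := hθ0 (τ - 1)
              gcongr
      have h8 : B * (3 * τ * ε2) ≤ 1 / 2 * (θ (τ - 1) * S) := by
        have h9 : (τ : ℝ) ≤ τ₀ := by exact_mod_cast hb.le
        have h10 : θ τ₀ ≤ θ (τ - 1) := hθanti _ _ (by omega)
        calc B * (3 * τ * ε2) ≤ B * (3 * τ₀ * ε2) := by gcongr
          _ = 1 / 2 * (6 * B * τ₀ * ε2) := by ring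
          _ ≤ 1 / 2 * (θ τ₀ * S) := by gcongr
          _ ≤ 1 / 2 * (θ (τ - 1) * S) := by gcongr
      have h11 : θ (τ - 1) * S ≤ θ r.val * S := mul_le_mul_of_nonneg_right h5 hS0.le
      refine le_trans (mul_le_mul_of_nonneg_left hT hB0.le) ?_
      have h12 : B * (3 * τ * ε2 + P * del X τ) = B * (3 * τ * ε2) + B * P * del X τ := by ring
      rw [h12]
      linarith
    · refine ⟨1, lt_of_lt_of_le ?_ (distI X τ 1)⟩
      have : (1 : ZMod τ).val = 1 := by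
        have := ZMod.val_cast_of_lt (n := τ) (a := 1) (by omega)
        simpa using this
      rw [this]
      have : 0 < c₁ * S := by positivity
      linarith
  · push Not at hex
    haveI : NeZero (2 * M) := ⟨by omega⟩
    have hT := caseII (γ := γ) hβ hG0 X M hM1'
    have hT2 : B * ∑ a, ∑ u, ‖γ⁻¹ • ((1 + β) • fam X (fun a : ZMod (2 * M) => win M a) a u
        - fam X (fun a : ZMod (2 * M) => win M a) (a + 1) u
        - β • fam X (fun a : ZMod (2 * M) => win M a) (a - 1) u)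
        - G (fam X (fun a : ZMod (2 * M) => win M a) a u)‖ ^ 2 ≤ 2 * B * P * S := by
      refine le_trans (mul_le_mul_of_nonneg_left hT hB0.le) ?_
      have h12 : B * (6 * M * ε2 + P * S) ≤ B * (P * S + P * S) :=
        mul_le_mul_of_nonneg_left (by linarith) hB0.le
      linarith
    have hlow : ∀ r : ZMod (2 * M), r ≠ 0 → r.val ≤ M → 2 * B * P * S ≤
        ∑ a, ∑ u, ‖fam X (fun a : ZMod (2 * M) => win M a) (a + r) u
          - fam X (fun a : ZMod (2 * M) => win M a) a u‖ ^ 2 := by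
      intro r hr hrM
      refine le_trans ?_ (distII X M hM1' r hrM)
      rw [← hS]
      have hrv : 1 ≤ r.val := by
        have : r.val ≠ 0 := fun h => hr ((ZMod.val_eq_zero r).1 h)
        omega
      have hrM' : (r.val : ℝ) ≤ M := by exact_mod_cast hrM
      have hd := hdelnn r.val
      by_cases hcase : τ₀ ≤ r.val
      · have h4 : (τ₀ : ℝ) ≤ r.val := by exact_mod_cast hcase
        have h5 : 2 * B * P ≤ r.val := by linarith
        have h6 : 2 * B * P * S ≤ r.val * S := mul_le_mul_of_nonneg_right h5 hS0.le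
        have h7 : 0 ≤ ((M : ℝ) - r.val) * del X r.val := mul_nonneg (by linarith) hd
        linarith
      · have h4 := hex r.val ⟨hrv, by omega⟩
        have h5 : θ τ₀ ≤ θ r.val := hθanti _ _ (by omega)
        have h6 : θ τ₀ * S ≤ del X r.val := (mul_le_mul_of_nonneg_right h5 hS0.le).trans h4
        have h7 : (r.val : ℝ) ≤ τ₀ := by exact_mod_cast (by omega : r.val ≤ τ₀)
        have h8 : (M : ℝ) / 2 ≤ M - r.val := by linarith
        have h9 : (M : ℝ) / 2 * (θ τ₀ * S) ≤ ((M : ℝ) - r.val) * del X r.val := by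
          have := hθ0 τ₀
          gcongr
        have h10 : 2 * B * P * S ≤ (M : ℝ) / 2 * (θ τ₀ * S) := by
          have : 4 * B * P * S ≤ M * θ τ₀ * S := mul_le_mul_of_nonneg_right hM3 hS0.le
          linarith
        have h11 : 0 ≤ (r.val : ℝ) * S := by positivity
        linarith
    refine hB E f G hf (2 * M) (ZMod n) (fam X (fun a : ZMod (2 * M) => win M a)) ?_ ?_
    · intro r hr
      refine hT2.trans ?_
      by_cases hrM : r.val ≤ M
      · exact hlow r hr hrM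
      · rw [dist_symm]
        apply hlow (-r) (neg_ne_zero.2 hr)
        rw [ZMod.neg_val, if_neg hr]
        omega
    · have hone : (1 : ZMod (2 * M)).val = 1 := by
        have := ZMod.val_cast_of_lt (n := 2 * M) (a := 1) (by omega)
        simpa using this
      refine ⟨1, lt_of_lt_of_le ?_ (distII X M hM1' 1 (by rw [hone]; exact hM1'))⟩
      rw [hone, ← hS]
      have h4 : 0 ≤ ((M : ℝ) - (1 : ℕ)) * del X 1 := by
        apply mul_nonneg _ (hdelnn 1)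
        push_cast; linarith
      push_cast at h4 ⊢
      linarith

end Pool.Agent.Helper66.HB
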