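import Pool.Agent.Helper66.HB.Interp

namespace Pool.Agent.Helper66.HB

open scoped RealInnerProductSpace
open Filter Topology

theorem slack_real {S δ η a r t : ℝ} (hS : 0 < S) (hδ : 0 < δ) (hη : 0 < η)
    (ha : 0 ≤ a) (hr : 0 ≤ r) (ht : t ≤ a * r) :
    δ * η / (2 * (δ + η)) * r ^ 2 ≤
      δ / 2 * r ^ 2 + a ^ 2 / (2 * S) - (a ^ 2 + 2 * δ * t + δ ^ 2 * r ^ 2) / (2 * (S + δ + η)) := by
  have h1 : 0 ≤ ((δ + η) * a - δ * S * r) ^ 2 / (S * (δ + η)) := by positivity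
  have h2 : δ * t ≤ δ * (a * r) := mul_le_mul_of_nonneg_left ht hδ.le
  have e : δ / 2 * r ^ 2 + a ^ 2 / (2 * S) - (a ^ 2 + 2 * δ * t + δ ^ 2 * r ^ 2) / (2 * (S + δ + η))
      - δ * η / (2 * (δ + η)) * r ^ 2 =
      (((δ + η) * a - δ * S * r) ^ 2 / (S * (δ + η)) + 2 * (δ * (a * r) - δ * t)) /
        (2 * (S + δ + η)) := by
    field_simp
    ring
  have h3 : 0 ≤ (((δ + η) * a - δ * S * r) ^ 2 / (S * (δ + η)) + 2 * (δ * (a * r) - δ * t)) /
        (2 * (S + δ + η)) := by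
    apply div_nonneg _ (by positivity)
    linarith
  linarith

/-- perturbed interpolation: if the gradients are moved by an error which is small relative to
the distances of the points, the data are interpolable in a slightly larger class -/
theorem perturbed_interp {μ L μ' L' : ℝ} (hμ' : 0 < μ') (h1 : μ' < μ) (h2 : μ < L) (h3 : L < L') :
    ∃ A : ℝ, 1 ≤ A ∧ ∀ (H : Type) [NormedAddCommGroup H] [InnerProductSpace ℝ H]
      (F : H → ℝ) (G : H → H), Cls μ L F G → ∀ (ι : Type) [Fintype ι] [Nonempty ι]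
      (y g : ι → H) (ε : ℝ), 0 ≤ ε → (∀ i, ‖g i - G (y i)‖ ≤ ε) →
      (∀ i j, i ≠ j → A * ε ≤ ‖y i - y j‖) →
      ∃ (f : H → ℝ) (G' : H → H), Cls μ' L' f G' ∧ ∀ i, G' (y i) = g i := by
  set δ := μ - μ' with hδ
  set η := L' - L with hη
  set S := L - μ with hS
  have hδ0 : 0 < δ := by linarith
  have hη0 : 0 < η := by linarith
  have hS0 : 0 < S := by linarith
  have hS' : L' - μ' = S + δ + η := by rw [hδ, hη, hS]; ring
  set c := δ * η / (2 * (δ + η)) with hc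
  have hc0 : 0 < c := by positivity
  set S' := S + δ + η with hS'd
  have hS'0 : 0 < S' := by positivity
  have hL0 : 0 < L := by linarith
  refine ⟨1 + (1 + (4 * L + 2) / S') / c, by
    have : 0 < (1 + (4 * L + 2) / S') / c := by positivity
    linarith, ?_⟩
  intro H _ _ F G hF ι _ _ y g ε hε hg hy
  apply interp_strong (by linarith : μ' < L') y g (fun i => F (y i))
  intro i j
  by_cases hij : i = j
  · subst hij; simp
  set Δ := y i - y j with hΔ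
  set r := ‖Δ‖ with hr
  have hr0 : 0 ≤ r := norm_nonneg _
  set w := G (y i) - G (y j) with hw
  set e := (g i - G (y i)) - (g j - G (y j)) with he
  have hge : g i - g j = w + e := by rw [hw, he]; abel
  have hsep := hy i j hij
  have hA1 : ε ≤ r := by
    have : 0 < (1 + (4 * L + 2) / S') / c := by positivity
    nlinarith
  have hA2 : (1 + (4 * L + 2) / S') * ε ≤ c * r := by
    have h4 : (1 + (4 * L + 2) / S') / c * ε ≤ r := by nlinarith
    have h5 : c * ((1 + (4 * L + 2) / S') / c * ε) ≤ c * r := mul_le_mul_of_nonneg_left h4 hc0.le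
    have h6 : c * ((1 + (4 * L + 2) / S') / c * ε) = (1 + (4 * L + 2) / S') * ε := by
      field_simp
    linarith
  have hbase := hF.interp h2 (y i) (y j)
  have hwn : ‖w‖ ≤ L * r := hF.lipschitz (by linarith) h2 (y i) (y j)
  have hen : ‖e‖ ≤ 2 * ε := by
    calc ‖e‖ ≤ ‖g i - G (y i)‖ + ‖g j - G (y j)‖ := norm_sub_le _ _
      _ ≤ 2 * ε := by linarith [hg i, hg j]
  rw [hge, hS']
  -- slack
  set v := w - μ • Δ with hv
  have hslack := slack_real (t := ⟪v, Δ⟫) hS0 hδ0 hη0 (norm_nonneg v) hr0 (real_inner_le_norm v Δ)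
  have e1 : w - μ' • Δ = v + δ • Δ := by rw [hv, hδ]; module
  have e2 : ‖w - μ' • Δ‖ ^ 2 = ‖v‖ ^ 2 + 2 * δ * ⟪v, Δ⟫ + δ ^ 2 * r ^ 2 := by
    rw [e1, @norm_add_sq_real, inner_smul_right, norm_smul, mul_pow, Real.norm_eq_abs, sq_abs]
    ring
  have e3 : w + e - μ' • Δ = (w - μ' • Δ) + e := by abel
  have n1 : ‖w - μ' • Δ‖ ≤ 2 * L * r := by
    calc ‖w - μ' • Δ‖ ≤ ‖w‖ + ‖μ' • Δ‖ := norm_sub_le _ _
      _ ≤ L * r + μ' * r := by
          rw [norm_smul, Real.norm_eq_abs, abs_of_pos hμ']; linarith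
      _ ≤ 2 * L * r := by
          have : μ' * r ≤ L * r := mul_le_mul_of_nonneg_right (by linarith) hr0
          linarith
  have n2 : ‖w + e - μ' • Δ‖ ^ 2 ≤ ‖w - μ' • Δ‖ ^ 2 + 8 * L * r * ε + 4 * ε ^ 2 := by
    rw [e3, @norm_add_sq_real]
    have p1 : ⟪w - μ' • Δ, e⟫ ≤ ‖w - μ' • Δ‖ * ‖e‖ := real_inner_le_norm _ _
    have p2 : ‖w - μ' • Δ‖ * ‖e‖ ≤ (2 * L * r) * (2 * ε) := by gcongr
    have p3 : ‖e‖ ^ 2 ≤ (2 * ε) ^ 2 := by gcongr
    linarith
  have n3 : ‖w + e - μ' • Δ‖ ^ 2 / (2 * S') ≤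
      (‖v‖ ^ 2 + 2 * δ * ⟪v, Δ⟫ + δ ^ 2 * r ^ 2) / (2 * S') + (4 * L * r * ε + 2 * ε ^ 2) / S' := by
    rw [← e2]
    calc ‖w + e - μ' • Δ‖ ^ 2 / (2 * S') ≤ (‖w - μ' • Δ‖ ^ 2 + 8 * L * r * ε + 4 * ε ^ 2) / (2 * S') := by
          gcongr
      _ = _ := by field_simp; ring
  have n4 : (4 * L * r * ε + 2 * ε ^ 2) / S' ≤ (4 * L + 2) / S' * ε * r := by
    have q1 : ε ^ 2 ≤ ε * r := by rw [pow_two]; exact mul_le_mul_of_nonneg_left hA1 hε
    have : (4 * L * r * ε + 2 * ε ^ 2) ≤ (4 * L + 2) * (ε * r) := by linarith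
    calc (4 * L * r * ε + 2 * ε ^ 2) / S' ≤ ((4 * L + 2) * (ε * r)) / S' := by gcongr
      _ = _ := by ring
  have n5 : ⟪g j, Δ⟫ ≤ ⟪G (y j), Δ⟫ + ε * r := by
    have : g j = G (y j) + (g j - G (y j)) := by abel
    rw [this, inner_add_left]
    have p1 : ⟪g j - G (y j), Δ⟫ ≤ ‖g j - G (y j)‖ * ‖Δ‖ := real_inner_le_norm _ _
    have p2 : ‖g j - G (y j)‖ * ‖Δ‖ ≤ ε * r := by gcongr; exact hg j
    linarith
  have n6 : (1 + (4 * L + 2) / S') * ε * r ≤ c * r * r := mul_le_mul_of_nonneg_right hA2 hr0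
  have e4 : μ = μ' + δ := by rw [hδ]; ring
  have hbase' : (μ' + δ) / 2 * r ^ 2 + ‖v‖ ^ 2 / (2 * S) ≤
      F (y i) - F (y j) - ⟪G (y j), Δ⟫ := by
    rw [← e4]; exact hbase
  have n7 : (1 + (4 * L + 2) / S') * ε * r = ε * r + (4 * L + 2) / S' * ε * r := by ring
  have n8 : c * r * r = c * r ^ 2 := by ring
  have n9 : (μ' + δ) / 2 * r ^ 2 = μ' / 2 * r ^ 2 + δ / 2 * r ^ 2 := by ring
  linarith [hbase', n3, n4, n5, n6, hslack]

end Pool.Agent.Helper66.HB
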