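import Mathlib

namespace Pool.Agent.Helper66.HB

open scoped RealInnerProductSpace
open Filter Topology

variable {H : Type*} [NormedAddCommGroup H] [InnerProductSpace ℝ H]

/-- the two sided inequality which characterises `μ`-strongly convex `L`-smooth functions -/
def Cls (μ L : ℝ) (f : H → ℝ) (G : H → H) : Prop :=
  ∀ x y, μ / 2 * ‖y - x‖ ^ 2 ≤ f y - f x - ⟪G x, y - x⟫ ∧
    f y - f x - ⟪G x, y - x⟫ ≤ L / 2 * ‖y - x‖ ^ 2

theorem Cls.mono {μ L μ' L' : ℝ} {f : H → ℝ} {G : H → H} (h : Cls μ L f G) (h1 : μ' ≤ μ)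
    (h2 : L ≤ L') : Cls μ' L' f G := by
  intro x y
  obtain ⟨a, b⟩ := h x y
  have : 0 ≤ ‖y - x‖ ^ 2 := by positivity
  constructor <;> nlinarith

/-- the interpolation inequality -/
theorem Cls.interp {μ L : ℝ} (hL : μ < L) {f : H → ℝ} {G : H → H} (h : Cls μ L f G) (x y : H) :
    μ / 2 * ‖x - y‖ ^ 2 + ‖(G x - G y) - μ • (x - y)‖ ^ 2 / (2 * (L - μ)) ≤
      f x - f y - ⟪G y, x - y⟫ := by
  -- test point z = x - (1/(L-μ)) • (G x - G y - μ (x - y))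
  set w := (G x - G y) - μ • (x - y) with hw
  set s := (L - μ)⁻¹ with hs
  have hS : 0 < L - μ := by linarith
  have hspos : 0 < s := by positivity
  have h1 := (h x (x - s • w)).2
  have h2 := (h y (x - s • w)).1
  have e1 : x - s • w - x = -(s • w) := by abel
  have e2 : x - s • w - y = (x - y) - s • w := by abel
  rw [e1] at h1
  rw [e2] at h2
  have n1 : ‖-(s • w)‖ ^ 2 = s ^ 2 * ‖w‖ ^ 2 := by
    rw [norm_neg, norm_smul, mul_pow, Real.norm_eq_abs, sq_abs]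
  have n2 : ‖(x - y) - s • w‖ ^ 2 = ‖x - y‖ ^ 2 - 2 * s * ⟪w, x - y⟫ + s ^ 2 * ‖w‖ ^ 2 := by
    rw [@norm_sub_sq_real, norm_smul, mul_pow, Real.norm_eq_abs, sq_abs, inner_smul_right,
      real_inner_comm]
    ring
  have i1 : ⟪G x, -(s • w)⟫ = - (s * ⟪G x, w⟫) := by
    rw [inner_neg_right, inner_smul_right]
  have i2 : ⟪G y, (x - y) - s • w⟫ = ⟪G y, x - y⟫ - s * ⟪G y, w⟫ := by
    rw [inner_sub_right, inner_smul_right]
  have i3 : ⟪G x, w⟫ - ⟪G y, w⟫ - μ * ⟪w, x - y⟫ = ‖w‖ ^ 2 := by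
    have : ⟪(G x - G y) - μ • (x - y), w⟫ = ⟪G x, w⟫ - ⟪G y, w⟫ - μ * ⟪w, x - y⟫ := by
      rw [inner_sub_left, inner_sub_left, inner_smul_left, real_inner_comm w (x - y)]; simp
    rw [← this, ← hw, real_inner_self_eq_norm_sq]
  rw [n1, i1] at h1
  rw [n2, i2] at h2
  have hsS : s * (L - μ) = 1 := by rw [hs]; field_simp
  have e3 : ‖w‖ ^ 2 / (2 * (L - μ)) = s / 2 * ‖w‖ ^ 2 := by
    rw [hs]; field_simp
  rw [e3]
  have : s ^ 2 * ((L - μ) * ‖w‖ ^ 2) = s * ‖w‖ ^ 2 := by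
    calc s ^ 2 * ((L - μ) * ‖w‖ ^ 2) = s * (s * (L - μ)) * ‖w‖ ^ 2 := by ring
      _ = _ := by rw [hsS]; ring
  nlinarith [h1, h2, i3, this]

theorem Cls.lipschitz {μ L : ℝ} (hμ : 0 ≤ μ) (hL : μ < L) {f : H → ℝ} {G : H → H}
    (h : Cls μ L f G) (x y : H) : ‖G x - G y‖ ≤ L * ‖x - y‖ := by
  have h1 := h.interp hL x y
  have h2 := h.interp hL y x
  have hS : 0 < L - μ := by linarith
  set w := (G x - G y) - μ • (x - y) with hw
  have ew : (G y - G x) - μ • (y - x) = - w := by rw [hw]; module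
  rw [ew, norm_neg, norm_sub_rev y x] at h2
  have i1 : ⟪G x, y - x⟫ = -⟪G x, x - y⟫ := by rw [← inner_neg_right, neg_sub]
  have i2 : ⟪w, x - y⟫ = ⟪G x, x - y⟫ - ⟪G y, x - y⟫ - μ * ‖x - y‖ ^ 2 := by
    rw [hw, inner_sub_left, inner_sub_left, inner_smul_left, real_inner_self_eq_norm_sq]; simp
  have h3 : ‖w‖ ^ 2 / (L - μ) ≤ ⟪w, x - y⟫ := by
    have : ‖w‖ ^ 2 / (2 * (L - μ)) = ‖w‖ ^ 2 / (L - μ) / 2 := by
      field_simp
    rw [this] at h1 h2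
    rw [i2]
    rw [i1] at h2
    linarith
  have h4 : ⟪w, x - y⟫ ≤ ‖w‖ * ‖x - y‖ := real_inner_le_norm _ _
  have h5 : ‖w‖ ≤ (L - μ) * ‖x - y‖ := by
    by_cases hw0 : ‖w‖ = 0
    · rw [hw0]; positivity
    · have hw1 : 0 < ‖w‖ := lt_of_le_of_ne (norm_nonneg _) (Ne.symm hw0)
      rw [div_le_iff₀ hS] at h3
      have : ‖w‖ * ‖w‖ ≤ ‖w‖ * ((L - μ) * ‖x - y‖) := by nlinarith
      exact le_of_mul_le_mul_left this hw1
  have h6 : G x - G y = w + μ • (x - y) := by rw [hw]; abel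
  calc ‖G x - G y‖ ≤ ‖w‖ + ‖μ • (x - y)‖ := by rw [h6]; exact norm_add_le _ _
    _ ≤ (L - μ) * ‖x - y‖ + μ * ‖x - y‖ := by
        rw [norm_smul, Real.norm_eq_abs, abs_of_nonneg hμ]; linarith
    _ = L * ‖x - y‖ := by ring

theorem Cls.strong {μ L : ℝ} {f : H → ℝ} {G : H → H}
    (h : Cls μ L f G) : StrongConvexOn Set.univ μ f := by
  rw [strongConvexOn_iff_convex]
  refine ⟨convex_univ, ?_⟩
  intro x _ y _ a b ha hb hab
  -- use lower bounds at z = a x + b y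
  set z := a • x + b • y with hz
  have h1 := (h z x).1
  have h2 := (h z y).1
  have e : a * ⟪G z, x - z⟫ + b * ⟪G z, y - z⟫ = 0 := by
    rw [← inner_smul_right, ← inner_smul_right, ← inner_add_right]
    have : a • (x - z) + b • (y - z) = 0 := by
      rw [smul_sub, smul_sub]
      have : a • x - a • z + (b • y - b • z) = (a • x + b • y) - (a + b) • z := by module
      rw [this, hab, one_smul, hz, sub_self]
    rw [this, inner_zero_right]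
  have n1 : ‖x - z‖ ^ 2 = ‖x‖ ^ 2 - 2 * ⟪x, z⟫ + ‖z‖ ^ 2 := @norm_sub_sq_real _ _ _ x z
  have n2 : ‖y - z‖ ^ 2 = ‖y‖ ^ 2 - 2 * ⟪y, z⟫ + ‖z‖ ^ 2 := @norm_sub_sq_real _ _ _ y z
  have n3 : a * ⟪x, z⟫ + b * ⟪y, z⟫ = ‖z‖ ^ 2 := by
    rw [← real_inner_self_eq_norm_sq z]
    conv_rhs => rw [hz]
    rw [← hz, inner_add_left, inner_smul_left, inner_smul_left]; simp
  simp only [smul_eq_mul]
  rw [n1] at h1
  rw [n2] at h2
  have hb' : b = 1 - a := by linarith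
  have k1 := mul_le_mul_of_nonneg_left h1 ha
  have k2 := mul_le_mul_of_nonneg_left h2 hb
  have : a * f x + b * f y - f z - (a * ⟪G z, x - z⟫ + b * ⟪G z, y - z⟫) ≥
      μ / 2 * (a * ‖x‖ ^ 2 + b * ‖y‖ ^ 2 - 2 * (a * ⟪x, z⟫ + b * ⟪y, z⟫) + ‖z‖ ^ 2) := by
    subst hb'
    nlinarith
  rw [e, n3] at this
  nlinarith

end Pool.Agent.Helper66.HB
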