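import Pool.Agent.Helper66.HB.Homotopy

namespace Pool.Agent.Helper66.HB

open scoped RealInnerProductSpace
open Filter Topology

theorem lyap_real {β p : ℝ} (hβ : |β| < 1) (hp : |p| < 1 + β) :
    ∃ a b c : ℝ, 0 < a ∧ 0 < c ∧ b ^ 2 ≤ a * c ∧
      a * p ^ 2 + 2 * b * p + c - a = -1 ∧ -2 * a * p * β - 2 * b * β - 2 * b = 0 ∧
      a * β ^ 2 - c = -1 := by
  obtain ⟨hb1, hb2⟩ := abs_lt.1 hβ
  have h1 : 0 < 1 + β := by linarith
  have h2 : 0 < 1 - β := by linarith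
  have h3 : p ^ 2 < (1 + β) ^ 2 := by
    rw [← sq_abs p]; gcongr
  have h4 : 0 < (1 + β) ^ 2 - p ^ 2 := by linarith
  set a := 2 * (1 + β) / ((1 - β) * ((1 + β) ^ 2 - p ^ 2)) with ha
  have ha0 : 0 < a := by positivity
  refine ⟨a, -(a * p * β) / (1 + β), 1 + a * β ^ 2, ha0, by positivity, ?_, ?_, ?_, ?_⟩
  · have e : (-(a * p * β) / (1 + β)) ^ 2 = a * (a * β ^ 2) * (p ^ 2 / (1 + β) ^ 2) := by
      field_simp
    rw [e]
    have h5 : p ^ 2 / (1 + β) ^ 2 ≤ 1 := by rw [div_le_one (by positivity)]; exact h3.le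
    have h6 : 0 ≤ a * (a * β ^ 2) := by positivity
    nlinarith
  · have e : a * ((1 - β) * ((1 + β) ^ 2 - p ^ 2)) = 2 * (1 + β) := by
      rw [ha]; field_simp
    have e2 : a * p ^ 2 + 2 * (-(a * p * β) / (1 + β)) * p + (1 + a * β ^ 2) - a =
        (- (a * ((1 - β) * ((1 + β) ^ 2 - p ^ 2))) + (1 + β)) / (1 + β) := by
      field_simp; ring
    rw [e2, e]; field_simp; ring
  · field_simp; ring
  · ring

theorem stab_linear {γ β κ : ℝ} (hβ : |β| < 1) (h0 : 0 < γ * κ) (h1 : γ * κ < 2 * (1 + β)) :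
    ∃ C : ℝ, 0 < C ∧ ∀ (E : Type) [NormedAddCommGroup E] [InnerProductSpace ℝ E],
      Stab γ β C (fun x : E => κ • x) := by
  obtain ⟨a, b, c, ha, hc, hbac, e1, e2, e3⟩ := lyap_real (p := 1 + β - γ * κ) hβ (by
    rw [abs_lt]; constructor <;> linarith)
  set p := 1 + β - γ * κ with hp
  refine ⟨a + |b| + c, by positivity, ?_⟩
  intro E _ _ x hx N
  have hrec : ∀ t, x (t + 2) = p • x (t + 1) - β • x t := by
    intro t; rw [hx t, hp]; module
  set V : ℕ → ℝ := fun t => a * ‖x (t + 1)‖ ^ 2 + 2 * b * ⟪x (t + 1), x t⟫ + c * ‖x t‖ ^ 2 with hV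
  have hVnn : ∀ t, 0 ≤ V t := by
    intro t
    simp only [hV]
    have h3 : |⟪x (t + 1), x t⟫| ≤ ‖x (t + 1)‖ * ‖x t‖ := abs_real_inner_le_norm _ _
    have h4 : -(|b| * (‖x (t + 1)‖ * ‖x t‖)) ≤ b * ⟪x (t + 1), x t⟫ := by
      have h5 : |b * ⟪x (t + 1), x t⟫| ≤ |b| * (‖x (t + 1)‖ * ‖x t‖) := by
        rw [abs_mul]; gcongr
      exact (neg_le_neg h5).trans (neg_abs_le _)
    set X := ‖x (t + 1)‖
    set Y := ‖x t‖
    have h6 : 0 ≤ a * (a * X ^ 2 - 2 * (|b| * (X * Y)) + c * Y ^ 2) := by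
      have : a * (a * X ^ 2 - 2 * (|b| * (X * Y)) + c * Y ^ 2) =
        (a * X - |b| * Y) ^ 2 + (a * c - b ^ 2) * Y ^ 2 := by
        rw [← sq_abs b]; ring
      rw [this]
      have : 0 ≤ (a * c - b ^ 2) * Y ^ 2 := mul_nonneg (by linarith) (by positivity)
      positivity
    have h7 : 0 ≤ a * X ^ 2 - 2 * (|b| * (X * Y)) + c * Y ^ 2 := by
      exact nonneg_of_mul_nonneg_right h6 ha
    linarith
  have hdec : ∀ t, V (t + 1) = V t - (‖x (t + 1)‖ ^ 2 + ‖x t‖ ^ 2) := by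
    intro t
    simp only [hV]
    have h3 : ‖x (t + 1 + 1)‖ ^ 2 = p ^ 2 * ‖x (t + 1)‖ ^ 2 - 2 * (p * β * ⟪x (t + 1), x t⟫) +
        β ^ 2 * ‖x t‖ ^ 2 := by
      rw [show t + 1 + 1 = t + 2 from rfl, hrec t, @norm_sub_sq_real, norm_smul, norm_smul,
        inner_smul_left, inner_smul_right, mul_pow, mul_pow, Real.norm_eq_abs, Real.norm_eq_abs,
        sq_abs, sq_abs]
      simp; ring
    have h4 : ⟪x (t + 1 + 1), x (t + 1)⟫ = p * ‖x (t + 1)‖ ^ 2 - β * ⟪x (t + 1), x t⟫ := by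
      rw [show t + 1 + 1 = t + 2 from rfl, hrec t, inner_sub_left, inner_smul_left,
        inner_smul_left, real_inner_self_eq_norm_sq, real_inner_comm (x (t + 1)) (x t)]
      simp
    rw [h3, h4]
    have k1 := congrArg (fun z => z * ‖x (t + 1)‖ ^ 2) e1
    have k2 := congrArg (fun z => z * ⟪x (t + 1), x t⟫) e2
    have k3 := congrArg (fun z => z * ‖x t‖ ^ 2) e3
    linarith
  have hsum : ∀ N, ∑ t ∈ Finset.range N, (‖x (t + 1)‖ ^ 2 + ‖x t‖ ^ 2) = V 0 - V N := by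
    intro N
    induction N with
    | zero => simp
    | succ N ih => rw [Finset.sum_range_succ, ih, hdec N]; ring
  have h5 : ∑ t ∈ Finset.range N, ‖x t‖ ^ 2 ≤ V 0 := by
    calc _ ≤ ∑ t ∈ Finset.range N, (‖x (t + 1)‖ ^ 2 + ‖x t‖ ^ 2) :=
          Finset.sum_le_sum fun t _ => by have : 0 ≤ ‖x (t + 1)‖ ^ 2 := by positivity
                                          linarith
      _ = V 0 - V N := hsum N
      _ ≤ V 0 := by linarith [hVnn N]
  refine h5.trans ?_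
  simp only [hV, zero_add]
  have h6 : b * ⟪x 1, x 0⟫ ≤ |b| * (‖x 1‖ * ‖x 0‖) := by
    calc b * ⟪x 1, x 0⟫ ≤ |b * ⟪x 1, x 0⟫| := le_abs_self _
      _ = |b| * |⟪x 1, x 0⟫| := abs_mul _ _
      _ ≤ _ := by gcongr; exact abs_real_inner_le_norm _ _
  have h7 : |b| * (2 * (‖x 1‖ * ‖x 0‖)) ≤ |b| * (‖x 0‖ ^ 2 + ‖x 1‖ ^ 2) := by
    gcongr
    nlinarith [sq_nonneg (‖x 1‖ - ‖x 0‖)]
  nlinarith [mul_nonneg ha.le (sq_nonneg ‖x 0‖), mul_nonneg hc.le (sq_nonneg ‖x 1‖)]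

theorem cls_combo {μ L κ s : ℝ} (hs0 : 0 ≤ s) {E : Type*} [NormedAddCommGroup E]
    [InnerProductSpace ℝ E] {f : E → ℝ} {G : E → E} (h : Cls μ L f G) :
    Cls (s * μ + (1 - s) * κ) (s * L + (1 - s) * κ)
      (fun x => s * f x + (1 - s) * (κ / 2 * ‖x‖ ^ 2))
      (fun x => s • G x + (1 - s) • (κ • x)) := by
  intro x y
  obtain ⟨a, b⟩ := h x y
  have e1 : ‖y - x‖ ^ 2 = ‖y‖ ^ 2 - 2 * ⟪y, x⟫ + ‖x‖ ^ 2 := @norm_sub_sq_real _ _ _ _ _
  have e3 : ⟪s • G x + (1 - s) • (κ • x), y - x⟫ =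
      s * ⟪G x, y - x⟫ + (1 - s) * (κ * (⟪y, x⟫ - ‖x‖ ^ 2)) := by
    rw [inner_add_left, inner_smul_left, inner_smul_left, inner_smul_left, inner_sub_right x y x,
      real_inner_self_eq_norm_sq, real_inner_comm y x]
    simp
  have a' := mul_le_mul_of_nonneg_left a hs0
  have b' := mul_le_mul_of_nonneg_left b hs0
  simp only
  rw [e3]
  rw [e1] at a' b' ⊢
  constructor <;> linarith

theorem Cls.norm_le {μ L : ℝ} (hμ : 0 ≤ μ) (hL : μ < L) {E : Type*} [NormedAddCommGroup E]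
    [InnerProductSpace ℝ E] {f : E → ℝ} {G : E → E} (h : Cls μ L f G) (h0 : G 0 = 0) (x : E) :
    ‖G x‖ ≤ L * ‖x‖ := by
  have := h.lipschitz hμ hL x 0
  rwa [h0, sub_zero, sub_zero] at this

/-- **Uniform stability from the absence of cycles in a larger class.** -/
theorem stab_all {μ L μ' L' γ β : ℝ} (hμ' : 0 < μ') (h1 : μ' < μ) (h2 : μ < L)
    (h3 : L < L') (hβ : |β| < 1) (hγ : 0 < γ) (hγL : γ * L < 2 * (1 + β))
    (hno : ¬ HasCycle μ' L' γ β) :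
    ∃ C : ℝ, 0 < C ∧ ∀ (E : Type) [NormedAddCommGroup E] [InnerProductSpace ℝ E]
      [FiniteDimensional ℝ E] (f : E → ℝ) (G : E → E), Cls μ L f G → G 0 = 0 →
      Stab γ β C G := by
  have hβ2 : β ^ 2 ≤ 1 := by rw [← sq_abs]; nlinarith [abs_nonneg β]
  have hμ : 0 < μ := by linarith
  have hL : 0 < L := by linarith
  obtain ⟨Γ, hΓ, hcoer⟩ := coercive hμ' h1 h2 h3 hγ.ne' hβ2 hno
  set C₃ := Γ * (3 * (2 * |γ⁻¹| + L) ^ 2 + 8 * γ⁻¹ ^ 2) with hC₃
  have hC₃0 : 0 < C₃ := by positivity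
  obtain ⟨δ, C', hδ, hC', hpert⟩ := stab_perturb (γ := γ) hβ2 hL.le hC₃0
  obtain ⟨m, hm⟩ := exists_nat_ge (2 * L / δ + 1)
  have hm0 : (0 : ℝ) < m := by
    have : 0 < 2 * L / δ := by positivity
    linarith
  have hm1 : 2 * L / m ≤ δ := by
    rw [div_le_iff₀ hm0]
    have : 2 * L / δ ≤ m := by linarith
    rw [div_le_iff₀ hδ] at this
    linarith
  obtain ⟨C₀, hC₀, hlin⟩ := stab_linear (γ := γ) (κ := μ) hβ (by positivity) (by nlinarith)
  refine ⟨C₃, hC₃0, ?_⟩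
  intro E _ _ _ f G hf hG0
  set Gk : ℕ → E → E := fun k x => ((k : ℝ) / m) • G x + (1 - (k : ℝ) / m) • (μ • x) with hGk
  have hcls : ∀ k, k ≤ m → ∃ f', Cls μ L f' (Gk k) := by
    intro k hk
    have hs0 : 0 ≤ (k : ℝ) / m := by positivity
    have hs1 : (k : ℝ) / m ≤ 1 := by
      rw [div_le_one hm0]; exact_mod_cast hk
    refine ⟨_, (cls_combo (κ := μ) hs0 hf).mono ?_ ?_⟩
    · nlinarith
    · nlinarith
  have hGk0 : ∀ k, Gk k 0 = 0 := by intro k; simp [hGk, hG0]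
  have hup : ∀ k, k ≤ m → ∀ C, Stab γ β C (Gk k) → Stab γ β C₃ (Gk k) := by
    intro k hk C hst
    obtain ⟨f', hf'⟩ := hcls k hk
    exact stab_uniform hγ.ne' hβ2 hL.le (hf'.norm_le hμ.le h2 (hGk0 k)) hΓ
      (fun n _ X => hcoer E f' (Gk k) hf' (hGk0 k) n X) hst
  have hall : ∀ k, k ≤ m → Stab γ β C₃ (Gk k) := by
    intro k
    induction k with
    | zero =>
      intro hk
      apply hup 0 hk C₀
      have : Gk 0 = fun x => μ • x := by
        funext x; simp [hGk]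
      rw [this]
      exact hlin E
    | succ k ih =>
      intro hk
      have hst := ih (by omega)
      obtain ⟨f', hf'⟩ := hcls k (by omega)
      apply hup (k + 1) hk C'
      refine hpert E (Gk k) (Gk (k + 1)) (hf'.norm_le hμ.le h2 (hGk0 k))
        (hf'.lipschitz hμ.le h2) ?_ hst
      intro x
      have e : Gk (k + 1) x - Gk k x = (1 / (m : ℝ)) • (G x - μ • x) := by
        simp only [hGk]
        push_cast
        module
      rw [e, norm_smul, Real.norm_eq_abs, abs_of_pos (by positivity)]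
      have n1 : ‖G x - μ • x‖ ≤ 2 * L * ‖x‖ := by
        calc ‖G x - μ • x‖ ≤ ‖G x‖ + ‖μ • x‖ := norm_sub_le _ _
          _ ≤ L * ‖x‖ + μ * ‖x‖ := by
              rw [norm_smul, Real.norm_eq_abs, abs_of_pos hμ]
              linarith [hf.norm_le hμ.le h2 hG0 x]
          _ ≤ 2 * L * ‖x‖ := by nlinarith [norm_nonneg x]
      calc 1 / (m : ℝ) * ‖G x - μ • x‖ ≤ 1 / (m : ℝ) * (2 * L * ‖x‖) := by gcongr
        _ = (2 * L / m) * ‖x‖ := by ring
        _ ≤ δ * ‖x‖ := by gcongr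
  have hfin := hall m le_rfl
  have : Gk m = G := by
    funext x
    simp only [hGk]
    rw [div_self hm0.ne']
    simp
  rwa [this] at hfin

/-- exponential convergence -/
theorem stab_exp {γ β : ℝ} (C : ℝ) : ∃ D ρ : ℝ, 0 < D ∧ 0 < ρ ∧ ρ < 1 ∧
    ∀ (E : Type) [NormedAddCommGroup E] [InnerProductSpace ℝ E] (G : E → E), Stab γ β C G →
      ∀ x : ℕ → E, Orb γ β G x → ∀ t, ‖x t‖ ≤ D * ρ ^ t * (‖x 0‖ + ‖x 1‖) := by
  set C₁ := max C 2 with hC₁
  have hC2 : 2 ≤ C₁ := le_max_right _ _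
  set r := 1 - 1 / C₁ with hr
  have hr0 : 0 < r := by
    rw [hr, sub_pos, div_lt_one (by linarith)]; linarith
  have hr1 : r < 1 := by
    have : 0 < 1 / C₁ := by positivity
    linarith
  set ρ := Real.sqrt (Real.sqrt r) with hρ
  have hρ0 : 0 < ρ := by positivity
  have hρ4 : ρ ^ 4 = r := by
    have : ρ ^ 4 = (ρ ^ 2) ^ 2 := by ring
    rw [this, hρ, Real.sq_sqrt (by positivity), Real.sq_sqrt hr0.le]
  have hρ1 : ρ < 1 := by
    by_contra hcon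
    push Not at hcon
    have : 1 ≤ ρ ^ 4 := one_le_pow₀ hcon
    linarith
  refine ⟨Real.sqrt C₁ / ρ, ρ, by positivity, hρ0, hρ1, ?_⟩
  intro E _ _ G hst x hx t
  have hst1 : Stab γ β C₁ G := by
    intro x hx N
    refine (hst x hx N).trans ?_
    gcongr
    exact le_max_left _ _
  have hsum := (hst1.tendsto hx).1
  set S : ℕ → ℝ := fun n => ∑' t, ‖x (n + t)‖ ^ 2 with hS
  have hsumn : ∀ n, Summable fun t => ‖x (n + t)‖ ^ 2 := fun n =>
    (hst1.tendsto (hx.shift n)).1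
  have hSnn : ∀ n, 0 ≤ S n := fun n => tsum_nonneg fun t => by positivity
  have hSstep : ∀ n, S n = ‖x n‖ ^ 2 + S (n + 1) := by
    intro n
    simp only [hS]
    rw [(hsumn n).tsum_eq_zero_add]
    simp only [add_zero]
    congr 1
    refine tsum_congr fun t => ?_
    rw [show n + (t + 1) = n + 1 + t by ring]
  have hSle : ∀ n, S n ≤ C₁ * (‖x n‖ ^ 2 + ‖x (n + 1)‖ ^ 2) := by
    intro n
    have := hst1 _ (hx.shift n)
    exact (hsumn n).tsum_le_of_sum_range_le this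
  have hdec : ∀ n, S (n + 2) ≤ r * S n := by
    intro n
    have h4 := hSle n
    have h5 := hSstep n
    have h6 := hSstep (n + 1)
    have h7 : S n ≤ C₁ * (S n - S (n + 2)) := by
      have : S (n + 1 + 1) = S (n + 2) := rfl
      rw [this] at h6
      have : ‖x n‖ ^ 2 + ‖x (n + 1)‖ ^ 2 = S n - S (n + 2) := by linarith
      rw [← this]; exact h4
    have hC0 : 0 < C₁ := by linarith
    have h8 : C₁ * (S (n + 2)) ≤ C₁ * (r * S n) := by
      have : C₁ * (r * S n) = C₁ * S n - S n := by rw [hr]; field_simp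
      rw [this]; linarith
    exact le_of_mul_le_mul_left h8 hC0
  have hpow : ∀ k, S (2 * k) ≤ r ^ k * S 0 := by
    intro k
    induction k with
    | zero => simp
    | succ k ih =>
      calc S (2 * (k + 1)) = S (2 * k + 2) := by ring_nf
        _ ≤ r * S (2 * k) := hdec _
        _ ≤ r * (r ^ k * S 0) := by gcongr
        _ = _ := by ring
  have hmono : ∀ n, S (n + 1) ≤ S n := fun n => by
    rw [hSstep n]; have : 0 ≤ ‖x n‖ ^ 2 := by positivity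
    linarith
  have hxS : ‖x t‖ ^ 2 ≤ S (2 * (t / 2)) := by
    have h4 : ‖x t‖ ^ 2 ≤ S t := by rw [hSstep t]; linarith [hSnn (t + 1)]
    rcases Nat.even_or_odd' t with ⟨k, hk | hk⟩
    · have : 2 * (t / 2) = t := by omega
      rw [this]; exact h4
    · have : t = 2 * (t / 2) + 1 := by omega
      calc ‖x t‖ ^ 2 ≤ S t := h4
        _ = S (2 * (t / 2) + 1) := by rw [← this]
        _ ≤ _ := hmono _
  have hS0 : S 0 ≤ C₁ * (‖x 0‖ + ‖x 1‖) ^ 2 := by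
    refine (hSle 0).trans ?_
    gcongr
    simp only [zero_add]
    nlinarith [mul_nonneg (norm_nonneg (x 0)) (norm_nonneg (x 1))]
  have hfin : (ρ * ‖x t‖) ^ 2 ≤ (Real.sqrt C₁ * ρ ^ t * (‖x 0‖ + ‖x 1‖)) ^ 2 := by
    have h5 : r ^ (t / 2) * ρ ^ 2 ≤ ρ ^ (2 * t) := by
      rw [← hρ4, ← pow_mul, ← pow_add]
      exact pow_le_pow_of_le_one hρ0.le hρ1.le (by omega)
    calc (ρ * ‖x t‖) ^ 2 = ρ ^ 2 * ‖x t‖ ^ 2 := by ring
      _ ≤ ρ ^ 2 * (r ^ (t / 2) * S 0) := by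
          gcongr
          exact hxS.trans (hpow _)
      _ = (r ^ (t / 2) * ρ ^ 2) * S 0 := by ring
      _ ≤ ρ ^ (2 * t) * (C₁ * (‖x 0‖ + ‖x 1‖) ^ 2) := by
          gcongr
      _ = (Real.sqrt C₁ * ρ ^ t * (‖x 0‖ + ‖x 1‖)) ^ 2 := by
          rw [mul_pow, mul_pow, Real.sq_sqrt (by linarith), ← pow_mul, mul_comm t 2]; ring
  have h6 : ρ * ‖x t‖ ≤ Real.sqrt C₁ * ρ ^ t * (‖x 0‖ + ‖x 1‖) :=
    le_of_sq_le_sq hfin (by positivity)
  have h7 : Real.sqrt C₁ / ρ * ρ ^ t * (‖x 0‖ + ‖x 1‖) =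
      (Real.sqrt C₁ * ρ ^ t * (‖x 0‖ + ‖x 1‖)) / ρ := by field_simp
  rw [h7, le_div_iff₀ hρ0]
  linarith

end Pool.Agent.Helper66.HB
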